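import Pool.Agent.L7h84.CL.Defs

/-! # Linear algebra of Clifford systems -/

open Real Set MeasureTheory
open scoped ContDiff

namespace Pool.Agent.L7h84.CL

variable {N p : ℕ}

/-- `ℝ^N` -/
abbrev EE (N : ℕ) := EuclideanSpace ℝ (Fin N)

section
variable {J : Fin p → EE N →L[ℝ] EE N} (hJ : IsClifford J)
include hJ

lemma inner_self_zero (i : Fin p) (x : EE N) : inner ℝ x (J i x) = 0 := by
  have h := hJ.skew i x x
  rw [real_inner_comm] at h
  linarith

lemma inner_self_zero' (i : Fin p) (x : EE N) : inner ℝ (J i x) x = 0 := by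
  rw [real_inner_comm]; exact inner_self_zero hJ i x

lemma inner_J (i : Fin p) (x y : EE N) : inner ℝ (J i x) (J i y) = inner ℝ x y := by
  rw [hJ.skew, hJ.sq, inner_neg_right, neg_neg]

lemma inner_J_right (i : Fin p) (x y : EE N) : inner ℝ x (J i y) = -inner ℝ (J i x) y := by
  rw [hJ.skew, neg_neg]

lemma inner_JJ {i j : Fin p} (hij : i ≠ j) (x : EE N) : inner ℝ (J i x) (J j x) = 0 := by
  have h1 := hJ.skew i x (J j x)
  have h2 := hJ.skew j x (J i x)
  rw [real_inner_comm] at h2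
  rw [hJ.anti i j hij, inner_neg_right, neg_neg] at h1
  linarith

lemma norm_J (i : Fin p) (x : EE N) : ‖J i x‖ = ‖x‖ := by
  have h := inner_J hJ i x x
  rw [real_inner_self_eq_norm_sq, real_inner_self_eq_norm_sq] at h
  exact (pow_left_inj₀ (norm_nonneg _) (norm_nonneg _) two_ne_zero).1 h


omit hJ in
lemma exists_hor (i₀ : Fin p) (hN : 2 * p < N) :
    ∃ e f : EE N, ‖e‖ = 1 ∧ ‖f‖ = 1 ∧ (∀ i, inner ℝ f (J i e) = 0) ∧
      ∀ i, inner ℝ f (J i₀ (J i e)) = 0 := by
  have hN0 : 0 < N := by omega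
  set e : EE N := EuclideanSpace.single ⟨0, hN0⟩ 1 with he
  have hen : ‖e‖ = 1 := by simp [he]
  set g : Fin p ⊕ Fin p → EE N := Sum.elim (fun i => J i e) (fun i => J i₀ (J i e)) with hg
  set S : Submodule ℝ (EE N) := Submodule.span ℝ (Set.range g) with hS
  have h1 : Module.finrank ℝ S ≤ 2 * p := by
    have := finrank_range_le_card (R := ℝ) g
    simp only [Fintype.card_sum, Fintype.card_fin] at this
    unfold Set.finrank at this
    rw [hS]
    omega
  have h2 := S.finrank_add_finrank_orthogonal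
  have h3 : Module.finrank ℝ (EE N) = N := by simp
  have h4 : 0 < Module.finrank ℝ Sᗮ := by omega
  have : Nontrivial Sᗮ := Module.nontrivial_of_finrank_pos h4
  obtain ⟨x, hx⟩ := exists_ne (0 : Sᗮ)
  have hx0 : (x : EE N) ≠ 0 := fun h => hx (Subtype.ext h)
  have hxn : ‖(x : EE N)‖ ≠ 0 := norm_ne_zero_iff.2 hx0
  have hx1 : ∀ y ∈ S, inner ℝ (x : EE N) y = 0 := fun y hy => by
    rw [real_inner_comm]
    exact (Submodule.mem_orthogonal S _).1 x.2 y hy
  refine ⟨e, (‖(x : EE N)‖)⁻¹ • (x : EE N), hen, ?_, fun i => ?_, fun i => ?_⟩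
  · rw [norm_smul, norm_inv, norm_norm, inv_mul_cancel₀ hxn]
  · rw [inner_smul_left, hx1 (J i e) (Submodule.subset_span ⟨Sum.inl i, rfl⟩), mul_zero]
  · rw [inner_smul_left, hx1 (J i₀ (J i e)) (Submodule.subset_span ⟨Sum.inr i, rfl⟩), mul_zero]

end

/-- The pair `e`, `f` together with all the orthogonality relations. -/
structure Good (J : Fin p → EE N →L[ℝ] EE N) (i₀ : Fin p) (e f : EE N) : Prop where
  cl : IsClifford J
  ne : ‖e‖ = 1
  nf : ‖f‖ = 1
  h1 : ∀ i, inner ℝ f (J i e) = 0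
  h2 : ∀ i, inner ℝ f (J i₀ (J i e)) = 0

section
variable {J : Fin p → EE N →L[ℝ] EE N} {i₀ : Fin p} {e f : EE N} (G : Good J i₀ e f)
include G

lemma Good.ef : inner ℝ f e = 0 := by
  have h := G.h2 i₀
  rw [G.cl.sq, inner_neg_right] at h
  linarith

/-- The four basis vectors. -/
noncomputable def bas (J : Fin p → EE N →L[ℝ] EE N) (i₀ : Fin p) (e f : EE N) : Fin 4 → EE N :=
  ![e, J i₀ e, f, J i₀ f]

lemma Good.bas_zero {i : Fin p} (hi : i ≠ i₀) (k l : Fin 4) :
    inner ℝ (bas J i₀ e f k) (J i (bas J i₀ e f l)) = 0 := by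
  have hc := G.cl
  have a1 : inner ℝ e (J i e) = 0 := inner_self_zero hc i e
  have a2 : inner ℝ e (J i (J i₀ e)) = 0 := by
    rw [inner_J_right hc, inner_JJ hc hi, neg_zero]
  have a3 : inner ℝ e (J i f) = 0 := by
    rw [inner_J_right hc, real_inner_comm, G.h1, neg_zero]
  have a4 : inner ℝ e (J i (J i₀ f)) = 0 := by
    rw [inner_J_right hc, inner_J_right hc, neg_neg, real_inner_comm, G.h2]
  have b1 : inner ℝ (J i₀ e) (J i e) = 0 := inner_JJ hc hi.symm e
  have b2 : inner ℝ (J i₀ e) (J i (J i₀ e)) = 0 := inner_self_zero hc i _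
  have b3 : inner ℝ (J i₀ e) (J i f) = 0 := by
    rw [inner_J_right hc, hc.anti i i₀ hi, inner_neg_left, neg_neg, real_inner_comm, G.h2]
  have b4 : inner ℝ (J i₀ e) (J i (J i₀ f)) = 0 := by
    rw [hc.anti i i₀ hi, inner_neg_right, inner_J hc, a3, neg_zero]
  have c1 : inner ℝ f (J i e) = 0 := G.h1 i
  have c2 : inner ℝ f (J i (J i₀ e)) = 0 := by
    rw [hc.anti i i₀ hi, inner_neg_right, G.h2, neg_zero]
  have c3 : inner ℝ f (J i f) = 0 := inner_self_zero hc i f
  have c4 : inner ℝ f (J i (J i₀ f)) = 0 := by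
    rw [inner_J_right hc, inner_JJ hc hi, neg_zero]
  have d1 : inner ℝ (J i₀ f) (J i e) = 0 := by
    rw [hc.skew, G.h2, neg_zero]
  have d2 : inner ℝ (J i₀ f) (J i (J i₀ e)) = 0 := by
    rw [hc.anti i i₀ hi, inner_neg_right, inner_J hc, c1, neg_zero]
  have d3 : inner ℝ (J i₀ f) (J i f) = 0 := inner_JJ hc hi.symm f
  have d4 : inner ℝ (J i₀ f) (J i (J i₀ f)) = 0 := inner_self_zero hc i _
  fin_cases k <;> fin_cases l <;> simp only [bas, Fin.zero_eta, Fin.mk_one, Fin.reduceFinMk,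
    Matrix.cons_val_zero, Matrix.cons_val_one, Matrix.cons_val] <;> assumption

/-- The space spanned by the four vectors. -/
noncomputable def PP (J : Fin p → EE N →L[ℝ] EE N) (i₀ : Fin p) (e f : EE N) :
    Submodule ℝ (EE N) :=
  Submodule.span ℝ (Set.range (bas J i₀ e f))

omit G in
lemma e_mem : e ∈ PP J i₀ e f := Submodule.subset_span ⟨0, rfl⟩

omit G in
lemma f_mem : f ∈ PP J i₀ e f := Submodule.subset_span ⟨2, rfl⟩

lemma Good.K_mem {x : EE N} (hx : x ∈ PP J i₀ e f) : J i₀ x ∈ PP J i₀ e f := by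
  have hle : PP J i₀ e f ≤ (PP J i₀ e f).comap (J i₀ : EE N →ₗ[ℝ] EE N) := by
    unfold PP
    rw [Submodule.span_le]
    rintro _ ⟨k, rfl⟩
    have b0 : e ∈ PP J i₀ e f := Submodule.subset_span ⟨0, rfl⟩
    have b1 : J i₀ e ∈ PP J i₀ e f := Submodule.subset_span ⟨1, rfl⟩
    have b2 : f ∈ PP J i₀ e f := Submodule.subset_span ⟨2, rfl⟩
    have b3 : J i₀ f ∈ PP J i₀ e f := Submodule.subset_span ⟨3, rfl⟩
    have c1 : J i₀ (J i₀ e) ∈ PP J i₀ e f := by rw [G.cl.sq]; exact neg_mem b0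
    have c3 : J i₀ (J i₀ f) ∈ PP J i₀ e f := by rw [G.cl.sq]; exact neg_mem b2
    fin_cases k
    · exact b1
    · exact c1
    · exact b3
    · exact c3
  exact hle hx

lemma Good.zero {i : Fin p} (hi : i ≠ i₀) {x y : EE N} (hx : x ∈ PP J i₀ e f)
    (hy : y ∈ PP J i₀ e f) : inner ℝ x (J i y) = 0 := by
  unfold PP at hx hy
  induction hx using Submodule.span_induction with
  | mem x hx =>
    obtain ⟨k, rfl⟩ := hx
    induction hy using Submodule.span_induction with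
    | mem y hy => obtain ⟨l, rfl⟩ := hy; exact G.bas_zero hi k l
    | zero => simp
    | add y z _ _ h1 h2 => rw [map_add, inner_add_right, h1, h2, add_zero]
    | smul c y _ h1 => rw [map_smul, inner_smul_right, h1, mul_zero]
  | zero => simp
  | add x z _ _ h1 h2 => rw [inner_add_left, h1, h2, add_zero]
  | smul c x _ h1 => rw [inner_smul_left, h1, mul_zero]

lemma Good.vert_eq {u w : EE N} (hu : u ∈ PP J i₀ e f) (hw : w ∈ PP J i₀ e f) :
    vert J u w = inner ℝ w (J i₀ u) ^ 2 := by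
  unfold vert
  refine Finset.sum_eq_single i₀ (fun i _ hi => ?_) (fun h => absurd (Finset.mem_univ _) h)
  rw [G.zero hi hw hu]
  ring

lemma Good.mom_eq (a b : ℝ → ℝ) (r : ℝ) {u w : EE N} (hu : u ∈ PP J i₀ e f)
    (hw : w ∈ PP J i₀ e f) :
    mom J a b r u w = b r ^ 2 • w + ((a r ^ 2 - b r ^ 2) * inner ℝ w (J i₀ u)) • J i₀ u := by
  unfold mom
  congr 1
  refine Finset.sum_eq_single i₀ (fun i _ hi => ?_) (fun h => absurd (Finset.mem_univ _) h)
  rw [G.zero hi hw hu, mul_zero, zero_smul]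

lemma Good.frc_eq (a b : ℝ → ℝ) (r : ℝ) {u w : EE N} (hu : u ∈ PP J i₀ e f)
    (hw : w ∈ PP J i₀ e f) :
    frc J a b r u w = ((a r ^ 2 - b r ^ 2) * inner ℝ w (J i₀ u)) • J i₀ w := by
  unfold frc
  refine Finset.sum_eq_single i₀ (fun i _ hi => ?_) (fun h => absurd (Finset.mem_univ _) h)
  rw [G.zero hi hw hu, mul_zero, zero_smul]

end

end Pool.Agent.L7h84.CL
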