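import Pool.Agent.L7h84.CL.Min

/-! # The critical point equations at the minimum -/

open Real Set MeasureTheory Filter Topology
open scoped ContDiff

namespace Pool.Agent.L7h84.CL.Cr

open Pool.Agent.H206R2 Pool.Agent.H206R2.Rot2 Pool.Agent.L7h84.CL.Mn

lemma scale_tendsto {l : ℝ} (hl : 0 < l) : Tendsto (fun ε : ℝ => l * ε) (𝓝[>] 0) (𝓝[>] 0) := by
  refine tendsto_nhdsWithin_iff.2 ⟨?_, ?_⟩
  · have : Continuous fun ε : ℝ => l * ε := by fun_prop
    have h := this.tendsto 0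
    rw [mul_zero] at h
    exact tendsto_nhdsWithin_of_tendsto_nhds h
  · filter_upwards [self_mem_nhdsWithin] with ε hε
    exact mul_pos hl hε

/-- upper bound, general constant -/
lemma F_gen {L : ℝ} {V G : ℝ → ℝ} (hV : ContinuousOn V (Ioo 0 L)) (hG : ContinuousOn G (Ioo 0 L))
    (hG0 : ∀ x ∈ Ioo 0 L, 0 < G x) {p q s : ℝ} (hp : 0 < p) (hps : p < s) (hsq : s < q)
    (hq : q < L) (hVp : V p = 1) (hVq : V q = 1) (hin : ∀ x ∈ Ioo p q, V x < 1) {k : ℝ}
    (hk : 0 < k) {κ₀ : ℝ} (hκ₀ : 0 < κ₀)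
    (hmin : ∀ κ, κ₀ < κ → ∀ᶠ ε in 𝓝[>] (0 : ℝ), 2 * ∫ r in Ioo p q, √(1 - V r) ≤
      2 * (∫ r in well L (fun r => V r + ((k + ε) ^ 2 - k ^ 2) * G r) s,
        √(1 - (V r + ((k + ε) ^ 2 - k ^ 2) * G r))) + κ * ε) :
    IntegrableOn (fun r => k * G r / √(1 - V r)) (Ioo p q) ∧
      2 * ∫ r in Ioo p q, k * G r / √(1 - V r) ≤ κ₀ := by
  have hπ := Real.pi_pos
  have main : ∀ κ, κ₀ < κ → IntegrableOn (fun r => k * G r / √(1 - V r)) (Ioo p q) ∧
      2 * ∫ r in Ioo p q, k * G r / √(1 - V r) ≤ κ := by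
    intro κ hκ
    have hκ0 : 0 < κ := hκ₀.trans hκ
    have hl : 0 < π / κ := by positivity
    have key := TF.abs_F (V := V) (G := fun r => (π / κ) ^ 2 * G r) hV
      (continuousOn_const.mul hG) (fun x hx => by have := hG0 x hx; positivity) hp hps hsq hq hVp hVq
      hin (k := k * κ / π) (by positivity) (σ := fun _ => s) tendsto_const_nhds (by
        filter_upwards [(scale_tendsto hl).eventually (hmin κ hκ)] with ε hε
        have e1 : (fun r => V r + ((k * κ / π + ε) ^ 2 - (k * κ / π) ^ 2) *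
            ((π / κ) ^ 2 * G r)) = fun r => V r + ((k + π / κ * ε) ^ 2 - k ^ 2) * G r := by
          funext r
          field_simp
        have e2 : π * ε = κ * (π / κ * ε) := by field_simp
        have e3 : ∀ r, V r + ((k * κ / π + ε) ^ 2 - (k * κ / π) ^ 2) *
            ((π / κ) ^ 2 * G r) = V r + ((k + π / κ * ε) ^ 2 - k ^ 2) * G r := fun r =>
          congrFun e1 r
        simp only [e3]
        rw [e2]
        exact hε)
    have e4 : (fun r => k * κ / π * ((π / κ) ^ 2 * G r) / √(1 - V r)) =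
        fun r => (π / κ) * (k * G r / √(1 - V r)) := by
      funext r
      field_simp
    rw [e4] at key
    have k1 := key.1
    have k2 := key.2
    rw [integral_const_mul] at k2
    refine ⟨?_, ?_⟩
    · have k3 : IntegrableOn (fun r => κ / π * (π / κ * (k * G r / √(1 - V r)))) (Ioo p q) :=
        k1.const_mul (κ / π)
      refine k3.congr_fun (fun r _ => ?_) measurableSet_Ioo
      simp only
      rw [← mul_assoc, show κ / π * (π / κ) = 1 by field_simp, one_mul]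
    · set I := ∫ r in Ioo p q, k * G r / √(1 - V r) with hI
      have : 2 * (π / κ * I) = π * (2 * I) / κ := by ring
      rw [this, div_le_iff₀ hκ0] at k2
      exact le_of_mul_le_mul_left k2 hπ
  refine ⟨(main (κ₀ + 1) (by linarith)).1, ?_⟩
  refine le_of_forall_gt_imp_ge_of_dense fun κ hκ => (main κ hκ).2

/-- lower bound, general constant -/
lemma G_gen {L : ℝ} {V G : ℝ → ℝ} (hV : ContinuousOn V (Ioo 0 L)) (hG : ContinuousOn G (Ioo 0 L))
    (hG0 : ∀ x ∈ Ioo 0 L, 0 < G x) {p q s : ℝ} (hp : 0 < p) (hps : p < s) (hsq : s < q)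
    (hq : q < L) (hVp : V p = 1) (hVq : V q = 1) (hin : ∀ x ∈ Ioo p q, V x < 1) {a b : ℝ}
    (ha : 0 < a) (hb : 0 < b) (hpd : ∀ᶠ r in 𝓝[<] p, 1 + a * (p - r) ≤ V r)
    (hqd : ∀ᶠ r in 𝓝[>] q, 1 + b * (r - q) ≤ V r) {k : ℝ}
    (hk : 0 < k) {κ₀ : ℝ} (hκ₀ : 0 < κ₀)
    (hmin : ∀ κ, 0 < κ → κ < κ₀ → ∀ᶠ ε in 𝓝[>] (0 : ℝ), 2 * (∫ r in Ioo p q, √(1 - V r)) + κ * ε ≤
      2 * ∫ r in well L (fun r => V r - (k ^ 2 - (k - ε) ^ 2) * G r) s,
        √(1 - (V r - (k ^ 2 - (k - ε) ^ 2) * G r)))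
    (hint : IntegrableOn (fun r => k * G r / √(1 - V r)) (Ioo p q)) :
    κ₀ ≤ 2 * ∫ r in Ioo p q, k * G r / √(1 - V r) := by
  have hπ := Real.pi_pos
  have main : ∀ κ, 0 < κ → κ < κ₀ → κ ≤ 2 * ∫ r in Ioo p q, k * G r / √(1 - V r) := by
    intro κ hκ0 hκ
    have hl : 0 < π / κ := by positivity
    have e4 : (fun r => k * κ / π * ((π / κ) ^ 2 * G r) / √(1 - V r)) =
        fun r => (π / κ) * (k * G r / √(1 - V r)) := by
      funext r
      field_simp
    have key := TG.abs_ge (V := V) (G := fun r => (π / κ) ^ 2 * G r) hV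
      (continuousOn_const.mul hG) (fun x hx => by have := hG0 x hx; positivity) hp hps hsq hq hVp hVq
      hin ha hb hpd hqd (k := k * κ / π) (by positivity) (σ := fun _ => s) tendsto_const_nhds (by
        filter_upwards [(scale_tendsto hl).eventually (hmin κ hκ0 hκ)] with ε hε
        have e1 : (fun r => V r - ((k * κ / π) ^ 2 - (k * κ / π - ε) ^ 2) *
            ((π / κ) ^ 2 * G r)) = fun r => V r - (k ^ 2 - (k - π / κ * ε) ^ 2) * G r := by
          funext r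
          field_simp
        have e2 : π * ε = κ * (π / κ * ε) := by field_simp
        have e3 : ∀ r, V r - ((k * κ / π) ^ 2 - (k * κ / π - ε) ^ 2) *
            ((π / κ) ^ 2 * G r) = V r - (k ^ 2 - (k - π / κ * ε) ^ 2) * G r := fun r =>
          congrFun e1 r
        simp only [e3]
        rw [e2]
        exact hε) (by rw [e4]; exact hint.const_mul _)
    rw [e4, integral_const_mul] at key
    set I := ∫ r in Ioo p q, k * G r / √(1 - V r) with hI
    have : 2 * (π / κ * I) = π * (2 * I) / κ := by ring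
    rw [this, le_div_iff₀ hκ0] at key
    exact le_of_mul_le_mul_left key hπ
  refine le_of_forall_lt_imp_le_of_dense fun κ hκ => ?_
  rcases le_or_gt κ 0 with h | h
  · have := main (κ₀ / 2) (by linarith) (by linarith)
    linarith
  · exact main κ h hκ

lemma nn_pos {R : ℝ} {c : ℝ × ℝ} (hc : c ∈ QD R) : 0 < nn c := by
  have h1 := hc.1
  unfold nn
  positivity

lemma nn_step {c c' : ℝ × ℝ} (hc : 0 < nn c) :
    nn c' ≤ nn c + ((c'.1 ^ 2 + c'.2 ^ 2) - (c.1 ^ 2 + c.2 ^ 2)) / (2 * nn c) := by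
  have h1 : 0 < c.1 ^ 2 + c.2 ^ 2 := by rw [← nn_sq]; positivity
  exact TF.sqrt_sub_le h1 (by positivity)

lemma isOpen_QD (R : ℝ) : IsOpen (QD R) := by
  have h1 : IsOpen {c : ℝ × ℝ | 0 < c.1} := isOpen_lt continuous_const continuous_fst
  have h2 : IsOpen {c : ℝ × ℝ | 0 < c.2} := isOpen_lt continuous_const continuous_snd
  have h3 : IsOpen {c : ℝ × ℝ | nn c < R} := isOpen_lt nn_cont continuous_const
  exact h1.inter (h2.inter h3)

section
variable {L : ℝ} {f h : ℝ → ℝ} (hf : PP2 L f h)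
include hf

lemma veff_contDiffOn (c₁ c₂ : ℝ) : ContDiffOn ℝ ∞ (Veff f h c₁ c₂) (Ioo 0 L) := by
  unfold Veff
  exact ((contDiffOn_const.div hf.pf.smooth.contDiffOn fun r hr =>
      (hf.pf.fpos r hr.1 hr.2).ne').pow 2).add
    ((contDiffOn_const.div hf.ph.smooth.contDiffOn fun r hr => (hf.ph.fpos r hr.1 hr.2).ne').pow 2)

lemma veff_reg (c₁ c₂ : ℝ) {p : ℝ}
    (hp : p ∈ Ioo 0 L) : (∀ᶠ x in 𝓝 p, DifferentiableAt ℝ (Veff f h c₁ c₂) x) ∧
      DifferentiableAt ℝ (deriv (Veff f h c₁ c₂)) p := by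
  have h1 := veff_contDiffOn hf c₁ c₂
  rw [contDiffOn_infty_iff_deriv_of_isOpen isOpen_Ioo] at h1
  constructor
  · filter_upwards [isOpen_Ioo.mem_nhds hp] with x hx
    exact h1.1.differentiableAt (isOpen_Ioo.mem_nhds hx)
  · exact (h1.2.differentiableOn (by simp)).differentiableAt (isOpen_Ioo.mem_nhds hp)

lemma gf_cont : ContinuousOn (fun r => 1 / f r ^ 2) (Ioo 0 L) :=
  continuousOn_const.div (hf.pf.smooth.continuous.continuousOn.pow 2)
    fun r hr => pow_ne_zero 2 (hf.pf.fpos r hr.1 hr.2).ne'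

lemma gh_cont : ContinuousOn (fun r => 1 / h r ^ 2) (Ioo 0 L) :=
  continuousOn_const.div (hf.ph.smooth.continuous.continuousOn.pow 2)
    fun r hr => pow_ne_zero 2 (hf.ph.fpos r hr.1 hr.2).ne'

lemma gf_pos : ∀ r ∈ Ioo 0 L, 0 < 1 / f r ^ 2 :=
  fun r hr => by have := hf.pf.fpos r hr.1 hr.2; positivity

lemma gh_pos : ∀ r ∈ Ioo 0 L, 0 < 1 / h r ^ 2 :=
  fun r hr => by have := hf.ph.fpos r hr.1 hr.2; positivity

end

lemma small_ev {A B κ κ₀ : ℝ} (h : κ₀ < κ) (hA : A = κ₀) : ∀ᶠ ε in 𝓝[>] (0 : ℝ),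
    A * ε + B * ε ^ 2 ≤ κ * ε := by
  have hc : Continuous fun ε : ℝ => A + B * ε := by fun_prop
  have ht := hc.tendsto 0
  simp only [mul_zero, add_zero] at ht
  filter_upwards [(tendsto_nhdsWithin_of_tendsto_nhds ht).eventually_lt_const (by rw [hA]; exact h),
    self_mem_nhdsWithin] with ε h1 h2
  have h2' : 0 < ε := h2
  nlinarith

lemma small_ev' {A B κ κ₀ : ℝ} (h : κ < κ₀) (hA : A = κ₀) : ∀ᶠ ε in 𝓝[>] (0 : ℝ),
    κ * ε ≤ A * ε - B * ε ^ 2 := by
  have hc : Continuous fun ε : ℝ => A - B * ε := by fun_prop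
  have ht := hc.tendsto 0
  simp only [mul_zero, sub_zero] at ht
  filter_upwards [(tendsto_nhdsWithin_of_tendsto_nhds ht).eventually_const_lt (by rw [hA]; exact h),
    self_mem_nhdsWithin] with ε h1 h2
  have h2' : 0 < ε := h2
  nlinarith

/-- Critical point equations. -/
theorem crit {L : ℝ} {f h : ℝ → ℝ} (hf : PP2 L f h) {R s : ℝ} {c : ℝ × ℝ} (hc : c ∈ QD R)
    (hmin : ∀ c' ∈ QD R, actW L (Veff f h c.1 c.2) s - 2 * π * (R - nn c) ≤
        actW L (Veff f h c'.1 c'.2) s - 2 * π * (R - nn c'))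
    {p q : ℝ} (hp : 0 < p) (hps : p < s) (hsq : s < q) (hq : q < L)
    (hVp : Veff f h c.1 c.2 p = 1) (hVq : Veff f h c.1 c.2 q = 1)
    (hw : well L (Veff f h c.1 c.2) s = Ioo p q)
    (hin : ∀ x ∈ Ioo p q, Veff f h c.1 c.2 x < 1) :
    IntegrableOn (fun r => 1 / √(1 - Veff f h c.1 c.2 r)) (Ioo p q) ∧
    2 * ∫ r in Ioo p q, c.1 / (f r ^ 2 * √(1 - Veff f h c.1 c.2 r)) = 2 * π * c.1 / nn c ∧
    2 * ∫ r in Ioo p q, c.2 / (h r ^ 2 * √(1 - Veff f h c.1 c.2 r)) = 2 * π * c.2 / nn c ∧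
    deriv (Veff f h c.1 c.2) p < 0 ∧ 0 < deriv (Veff f h c.1 c.2) q := by
  have hn := nn_pos hc
  have hcT := hc
  obtain ⟨c₁, c₂⟩ := c
  obtain ⟨hc1, hc2, hc3⟩ := hc
  simp only at hc1 hc2 hmin hVp hVq hw hin ⊢
  have hπ := Real.pi_pos
  set n₀ := nn (c₁, c₂) with hn₀
  have hVc : ContinuousOn (Veff f h c₁ c₂) (Ioo 0 L) := (veff_contDiffOn hf c₁ c₂).continuousOn
  have hpq : p < q := hps.trans hsq
  have t1 : Tendsto (fun ε : ℝ => (c₁ + ε, c₂)) (𝓝[>] 0) (𝓝 (c₁, c₂)) := by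
    have : Continuous fun ε : ℝ => (c₁ + ε, c₂) := by fun_prop
    have h2 := this.tendsto 0
    rw [add_zero] at h2
    exact tendsto_nhdsWithin_of_tendsto_nhds h2
  have t2 : Tendsto (fun ε : ℝ => (c₁, c₂ + ε)) (𝓝[>] 0) (𝓝 (c₁, c₂)) := by
    have : Continuous fun ε : ℝ => (c₁, c₂ + ε) := by fun_prop
    have h2 := this.tendsto 0
    rw [add_zero] at h2
    exact tendsto_nhdsWithin_of_tendsto_nhds h2
  have t3 : Tendsto (fun ε : ℝ => (c₁ - ε, c₂)) (𝓝[>] 0) (𝓝 (c₁, c₂)) := by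
    have : Continuous fun ε : ℝ => (c₁ - ε, c₂) := by fun_prop
    have h2 := this.tendsto 0
    rw [sub_zero] at h2
    exact tendsto_nhdsWithin_of_tendsto_nhds h2
  have t4 : Tendsto (fun ε : ℝ => (c₁, c₂ - ε)) (𝓝[>] 0) (𝓝 (c₁, c₂)) := by
    have : Continuous fun ε : ℝ => (c₁, c₂ - ε) := by fun_prop
    have h2 := this.tendsto 0
    rw [sub_zero] at h2
    exact tendsto_nhdsWithin_of_tendsto_nhds h2
  -- first direction
  have F1 := F_gen (V := Veff f h c₁ c₂) (G := fun r => 1 / f r ^ 2) hVc (gf_cont hf) (gf_pos hf)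
    hp hps hsq hq hVp hVq hin hc1 (κ₀ := 2 * π * c₁ / n₀) (by positivity) (by
      intro κ hκ
      filter_upwards [t1 ((isOpen_QD R).mem_nhds hcT),
        small_ev (B := π / n₀) hκ rfl] with ε hε hε2
      have h2 := hmin (c₁ + ε, c₂) hε
      simp only [actW] at h2
      rw [hw, TF.veff_add1] at h2
      have h3 := nn_step (c := (c₁, c₂)) (c' := (c₁ + ε, c₂)) hn
      simp only at h3
      have h4 : 2 * π * (((c₁ + ε) ^ 2 + c₂ ^ 2 - (c₁ ^ 2 + c₂ ^ 2)) / (2 * n₀)) =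
          2 * π * c₁ / n₀ * ε + π / n₀ * ε ^ 2 := by
        field_simp
        ring
      nlinarith)
  have F2 := F_gen (V := Veff f h c₁ c₂) (G := fun r => 1 / h r ^ 2) hVc (gh_cont hf) (gh_pos hf)
    hp hps hsq hq hVp hVq hin hc2 (κ₀ := 2 * π * c₂ / n₀) (by positivity) (by
      intro κ hκ
      filter_upwards [t2 ((isOpen_QD R).mem_nhds hcT),
        small_ev (B := π / n₀) hκ rfl] with ε hε hε2
      have h2 := hmin (c₁, c₂ + ε) hε
      simp only [actW] at h2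
      rw [hw, TF.veff_add2] at h2
      have h3 := nn_step (c := (c₁, c₂)) (c' := (c₁, c₂ + ε)) hn
      simp only at h3
      have h4 : 2 * π * ((c₁ ^ 2 + (c₂ + ε) ^ 2 - (c₁ ^ 2 + c₂ ^ 2)) / (2 * n₀)) =
          2 * π * c₂ / n₀ * ε + π / n₀ * ε ^ 2 := by
        field_simp
        ring
      nlinarith)
  have e1 : (fun r => c₁ / (f r ^ 2 * √(1 - Veff f h c₁ c₂ r))) =
      fun r => c₁ * (1 / f r ^ 2) / √(1 - Veff f h c₁ c₂ r) := by
    funext r
    rw [div_mul_eq_div_div, mul_one_div]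
  have e2 : (fun r => c₂ / (h r ^ 2 * √(1 - Veff f h c₁ c₂ r))) =
      fun r => c₂ * (1 / h r ^ 2) / √(1 - Veff f h c₁ c₂ r) := by
    funext r
    rw [div_mul_eq_div_div, mul_one_div]
  have hsub2 : Icc p q ⊆ Ioo 0 L := fun r hr => ⟨by linarith [hr.1], by linarith [hr.2]⟩
  have hsub3 : Ioo p q ⊆ Ioo 0 L := Ioo_subset_Icc_self.trans hsub2
  have hint : IntegrableOn (fun r => 1 / √(1 - Veff f h c₁ c₂ r)) (Ioo p q) := by
    obtain ⟨x1, hx1, hmin1⟩ := isCompact_Icc.exists_isMinOn (nonempty_Icc.mpr hpq.le)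
      ((gf_cont hf).mono hsub2)
    have hm : 0 < 1 / f x1 ^ 2 := gf_pos hf x1 (hsub2 hx1)
    set m := 1 / f x1 ^ 2 with hmdef
    have hI : IntegrableOn (fun r => 1 / (c₁ * m) *
      (c₁ * (1 / f r ^ 2) / √(1 - Veff f h c₁ c₂ r))) (Ioo p q) := F1.1.const_mul _
    refine hI.mono' ?_ ?_
    · apply ContinuousOn.aestronglyMeasurable _ measurableSet_Ioo
      refine continuousOn_const.div (continuousOn_const.sub (hVc.mono hsub3)).sqrt ?_
      intro r hr
      exact (Real.sqrt_pos.mpr (by linarith [hin r hr])).ne'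
    · refine (ae_restrict_iff' measurableSet_Ioo).mpr (ae_of_all _ fun r hr => ?_)
      have hs : 0 < √(1 - Veff f h c₁ c₂ r) := Real.sqrt_pos.mpr (by linarith [hin r hr])
      rw [Real.norm_eq_abs, abs_of_pos (by positivity)]
      have h1 : m ≤ 1 / f r ^ 2 := hmin1 (Ioo_subset_Icc_self hr)
      have h2 : 1 / (c₁ * m) * (c₁ * (1 / f r ^ 2) / √(1 - Veff f h c₁ c₂ r)) =
          (1 / f r ^ 2 / m) * (1 / √(1 - Veff f h c₁ c₂ r)) := by
        field_simp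
      rw [h2]
      have h3 : 1 ≤ 1 / f r ^ 2 / m := by rw [le_div_iff₀ hm, one_mul]; exact h1
      exact le_mul_of_one_le_left (by positivity) h3
  obtain ⟨r1, r2⟩ := veff_reg hf c₁ c₂ (hsub2 (left_mem_Icc.mpr hpq.le))
  obtain ⟨r3, r4⟩ := veff_reg hf c₁ c₂ (hsub2 (right_mem_Icc.mpr hpq.le))
  have hp' : deriv (Veff f h c₁ c₂) p < 0 := TF.deriv_neg hpq r1 r2 hVp hin hint
  have hq' : 0 < deriv (Veff f h c₁ c₂) q := TF.deriv_pos hpq r3 r4 hVq hin hint
  have b1 := TG.left_bound r1.self_of_nhds hp' hVp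
  have b2 := TG.right_bound r3.self_of_nhds hq' hVq
  refine ⟨hint, ?_, ?_, hp', hq'⟩
  · rw [e1]
    refine le_antisymm F1.2 ?_
    refine G_gen (V := Veff f h c₁ c₂) (G := fun r => 1 / f r ^ 2) hVc (gf_cont hf) (gf_pos hf)
      hp hps hsq hq hVp hVq hin (by linarith : 0 < -deriv (Veff f h c₁ c₂) p / 2)
      (by linarith : 0 < deriv (Veff f h c₁ c₂) q / 2) b1 b2 hc1 (κ₀ := 2 * π * c₁ / n₀)
      (by positivity) ?_ F1.1
    intro κ hκ0 hκ
    filter_upwards [t3 ((isOpen_QD R).mem_nhds hcT),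
      small_ev' (B := π / n₀) hκ rfl] with ε hε hε2
    have h2 := hmin (c₁ - ε, c₂) hε
    simp only [actW] at h2
    rw [hw, TG.veff_sub1] at h2
    have h3 := nn_step (c := (c₁, c₂)) (c' := (c₁ - ε, c₂)) hn
    simp only at h3
    have h4 : 2 * π * (((c₁ - ε) ^ 2 + c₂ ^ 2 - (c₁ ^ 2 + c₂ ^ 2)) / (2 * n₀)) =
        -(2 * π * c₁ / n₀ * ε - π / n₀ * ε ^ 2) := by
      field_simp
      ring
    nlinarith
  · rw [e2]
    refine le_antisymm F2.2 ?_
    refine G_gen (V := Veff f h c₁ c₂) (G := fun r => 1 / h r ^ 2) hVc (gh_cont hf) (gh_pos hf)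
      hp hps hsq hq hVp hVq hin (by linarith : 0 < -deriv (Veff f h c₁ c₂) p / 2)
      (by linarith : 0 < deriv (Veff f h c₁ c₂) q / 2) b1 b2 hc2 (κ₀ := 2 * π * c₂ / n₀)
      (by positivity) ?_ F2.1
    intro κ hκ0 hκ
    filter_upwards [t4 ((isOpen_QD R).mem_nhds hcT),
      small_ev' (B := π / n₀) hκ rfl] with ε hε hε2
    have h2 := hmin (c₁, c₂ - ε) hε
    simp only [actW] at h2
    rw [hw, TG.veff_sub2] at h2
    have h3 := nn_step (c := (c₁, c₂)) (c' := (c₁, c₂ - ε)) hn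
    simp only at h3
    have h4 : 2 * π * ((c₁ ^ 2 + (c₂ - ε) ^ 2 - (c₁ ^ 2 + c₂ ^ 2)) / (2 * n₀)) =
        -(2 * π * c₂ / n₀ * ε - π / n₀ * ε ^ 2) := by
      field_simp
      ring
    nlinarith

end Pool.Agent.L7h84.CL.Cr
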