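import Pool.Agent.H206R2.Rot.Defs

/-!
# Metrics `dr² + a(r)² g_V + b(r)² g_H` on `S^N` from Clifford systems: definitions

`J₁, …, J_p` : a Clifford system on `ℝ^N` (anticommuting orthogonal complex structures).  The vectors
`J₁ u, …, J_p u` are an orthonormal basis of the vertical space `V_u ⊂ T_u S^{N-1}`; `H_u` is its
orthogonal complement.  For two profiles `a`, `b` of rotationally symmetric metrics on `S^N` the metric
`dr² + a(r)² g_V + b(r)² g_H`, `0 < r < L`, closes up to a smooth metric on `S^N`.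
For `p = 1` these are the `U(n)`-invariant metrics on `S^{2n}`, for `p = 3` and `ℝ^N = ℍ^n` metrics
invariant under `Sp(n) Sp(1)`.
-/

open Real Set MeasureTheory
open scoped ContDiff

namespace Pool.Agent.L7h84.CL

variable {N p : ℕ}

/-- Clifford systems: anticommuting skew-symmetric orthogonal complex structures of `ℝ^N`. -/
structure IsClifford
    (J : Fin p → EuclideanSpace ℝ (Fin N) →L[ℝ] EuclideanSpace ℝ (Fin N)) : Prop where
  sq : ∀ i x, J i (J i x) = -x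
  skew : ∀ i x y, inner ℝ (J i x) y = -inner ℝ x (J i y)
  anti : ∀ i j, i ≠ j → ∀ x, J i (J j x) = -J j (J i x)

/-- `|w_V|²` for the vertical part `w_V` of a tangent vector `w` of the unit sphere at `u`. -/
noncomputable def vert (J : Fin p → EuclideanSpace ℝ (Fin N) →L[ℝ] EuclideanSpace ℝ (Fin N))
    (u w : EuclideanSpace ℝ (Fin N)) : ℝ :=
  ∑ i, inner ℝ w (J i u) ^ 2

/-- The derivative `∂𝓛/∂u'` of the Lagrangian
`𝓛 = (r'² + a(r)² |u'_V|² + b(r)² |u'_H|²) / 2 = (r'² + b(r)² |u'|² + (a(r)² - b(r)²) ∑ᵢ ⟨u', Jᵢ u⟩²) / 2`. -/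
noncomputable def mom (J : Fin p → EuclideanSpace ℝ (Fin N) →L[ℝ] EuclideanSpace ℝ (Fin N))
    (a b : ℝ → ℝ) (r : ℝ) (u w : EuclideanSpace ℝ (Fin N)) : EuclideanSpace ℝ (Fin N) :=
  b r ^ 2 • w + ∑ i, ((a r ^ 2 - b r ^ 2) * inner ℝ w (J i u)) • J i u

/-- The derivative `∂𝓛/∂u`, up to the sign. -/
noncomputable def frc (J : Fin p → EuclideanSpace ℝ (Fin N) →L[ℝ] EuclideanSpace ℝ (Fin N))
    (a b : ℝ → ℝ) (r : ℝ) (u w : EuclideanSpace ℝ (Fin N)) : EuclideanSpace ℝ (Fin N) :=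
  ∑ i, ((a r ^ 2 - b r ^ 2) * inner ℝ w (J i u)) • J i w

/-- `γ` is a geodesic of speed `v` of the metric `dr² + a(r)² g_V + b(r)² g_H` on `S^N ⊂ ℝ^N × ℝ`,
written in extended polar coordinates `(r, u)`: the Euler-Lagrange equations of the energy under the
constraint `|u| = 1`. -/
def IsGeodesicC (J : Fin p → EuclideanSpace ℝ (Fin N) →L[ℝ] EuclideanSpace ℝ (Fin N))
    (L : ℝ) (a b : ℝ → ℝ) (v : ℝ) (γ : ℝ → EuclideanSpace ℝ (Fin N) × ℝ) : Prop :=
  ∃ (r : ℝ → ℝ) (u : ℝ → EuclideanSpace ℝ (Fin N)), ContDiff ℝ 2 r ∧ ContDiff ℝ 2 u ∧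
    (∀ t, ‖u t‖ = 1) ∧ (∀ t, γ t = H206R2.Rot.polar L (r t) (u t)) ∧
    (∀ t, deriv (deriv r) t = a (r t) * deriv a (r t) * vert J (u t) (deriv u t) +
      b (r t) * deriv b (r t) * (‖deriv u t‖ ^ 2 - vert J (u t) (deriv u t))) ∧
    (∀ t, HasDerivAt (fun t => mom J a b (r t) (u t) (deriv u t))
      (-frc J a b (r t) (u t) (deriv u t) - (b (r t) ^ 2 * ‖deriv u t‖ ^ 2 +
        2 * (a (r t) ^ 2 - b (r t) ^ 2) * vert J (u t) (deriv u t)) • u t) t) ∧
    (∀ t, deriv r t ^ 2 + a (r t) ^ 2 * vert J (u t) (deriv u t) +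
      b (r t) ^ 2 * (‖deriv u t‖ ^ 2 - vert J (u t) (deriv u t)) = v ^ 2)

end Pool.Agent.L7h84.CL
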