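import Pool.Agent.L7h84.CL.Round

/-!
# Sharp short periodic geodesics for metrics of Hopf and Clifford type on `S^N`

`IsClifford J`: `J₁, …, J_p` are anticommuting skew-symmetric orthogonal complex structures of `ℝ^N`.  On the
unit sphere `S^{N-1}` let `V_u = span (J₁ u, …, J_p u)` and `H_u` its orthogonal complement in `T_u S^{N-1}`.
`IsProfile L a`, `IsProfile L b`: `dr² + a(r)² g_V + b(r)² g_H`, `0 < r < L`, is a smooth metric on `S^N`
with poles at distance `L`.  For `p = 1` these are (up to isometry) all `U(n)`-invariant metrics on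
`S^{2n} ⊂ ℂ^n × ℝ`, for `ℍ^n = ℝ^{4n}` and `p = 3` metrics invariant under `Sp(n) Sp(1)`; for other Clifford
systems the slices are in general not homogeneous.
`IsGeodesicC J L a b v γ`: `γ : ℝ → S^N ⊂ ℝ^N × ℝ` is a geodesic of speed `v` of this metric.
Every such metric has a unit speed periodic geodesic of period `T ≤ 2 L` with
`T^N ∫_0^π sin^{N-1} ≤ (2π)^N ∫_0^L a^p b^{N-1-p}`, i.e. `T^N vol(S^N) ≤ (2π)^N vol(M)`;
for the round metric (`a = b = sin`) every periodic geodesic has length `≥ 2π`: the constant is optimal.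
-/

open Real Set MeasureTheory

namespace Pool.Agent.L7h84.CL.HopfCliffordSpheres

open Pool.Agent.L7h84.CL Pool.Agent.H206R2.Rot

theorem hopf_clifford :
    (∀ (N p : ℕ) (J : Fin p → EuclideanSpace ℝ (Fin N) →L[ℝ] EuclideanSpace ℝ (Fin N)),
      IsClifford J → 1 ≤ p → 2 * p < N → ∀ (L : ℝ) (a b : ℝ → ℝ), IsProfile L a → IsProfile L b →
      ∃ (γ : ℝ → EuclideanSpace ℝ (Fin N) × ℝ) (T : ℝ), 0 < T ∧ IsGeodesicC J L a b 1 γ ∧
        (∀ t, γ (t + T) = γ t) ∧ T ≤ 2 * L ∧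
        T ^ N * (∫ t in (0 : ℝ)..π, Real.sin t ^ (N - 1))
          ≤ (2 * π) ^ N * ∫ r in (0 : ℝ)..L, a r ^ p * b r ^ (N - 1 - p)) ∧
    (IsProfile π Real.sin ∧
      ∀ (N p : ℕ) (J : Fin p → EuclideanSpace ℝ (Fin N) →L[ℝ] EuclideanSpace ℝ (Fin N))
        (γ : ℝ → EuclideanSpace ℝ (Fin N) × ℝ) (v T : ℝ), 0 < v → 0 < T →
        IsGeodesicC J π Real.sin Real.sin v γ → (∀ t, γ (t + T) = γ t) → 2 * π ≤ v * T) :=
  ⟨fun _ _ _ hJ hp hN _ _ _ ha hb => main' hJ hp hN ha hb,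
    TG.round_profile, fun _ _ _ _ _ _ hv hT hγ hper => round_lengthC hv hT hγ hper⟩

end Pool.Agent.L7h84.CL.HopfCliffordSpheres
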