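import Pool.Agent.L7h84.CL.Crit

/-! # The volume bound -/

open Real Set MeasureTheory Filter Topology
open scoped ContDiff

namespace Pool.Agent.L7h84.CL.Vl

open Pool.Agent.H206R2 Pool.Agent.H206R2.Rot2 Pool.Agent.L7h84.CL.Mn
open Pool.Agent.H206R2.Rot2.TI (SC gg gg_nonneg gg_bound gg_integrable gg_integral)

lemma SC_symm (p q : ℕ) : SC p q = SC q p := by
  unfold SC
  have h := intervalIntegral.integral_comp_sub_left (a := (0 : ℝ)) (b := π / 2)
    (fun t => Real.sin t ^ q * Real.cos t ^ p) (π / 2)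
  simp only [sub_self, sub_zero, Real.sin_pi_div_two_sub, Real.cos_pi_div_two_sub] at h
  rw [← h]
  refine intervalIntegral.integral_congr fun t _ => ?_
  ring

lemma W_eq (b : ℕ) : ∫ x in (0 : ℝ)..(π / 2), Real.sin x ^ b =
    1 / 2 * ∫ x in (0 : ℝ)..π, Real.sin x ^ b := by
  rw [← EulerSine.integral_cos_pow_eq]
  have := SC_symm b 0
  unfold SC at this
  simpa using this

/-- the constants match -/
lemma const_id (a b : ℕ) : π * SC b a / (((a : ℝ) + b + 2) * ((a : ℝ) + b + 3)) =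
    (∫ x in (0 : ℝ)..1, √(1 - x ^ 2) * x ^ b) * SC a (b + 3) *
      ∫ x in (0 : ℝ)..π, Real.sin x ^ (a + b + 2) := by
  rw [Rot.TE.B_eq b]
  induction a using Nat.twoStepInduction with
  | zero =>
    have h1 : SC b 0 = ∫ x in (0 : ℝ)..(π / 2), Real.sin x ^ b := by unfold SC; simp
    have h2 := TI.SC_zero_pair (b + 2)
    rw [W_eq (b + 2)] at h2
    rw [h1]
    set W := ∫ x in (0 : ℝ)..(π / 2), Real.sin x ^ b with hW
    rw [show 0 + b + 2 = b + 2 by ring]
    set S := ∫ x in (0 : ℝ)..π, Real.sin x ^ (b + 2) with hS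
    rw [show b + 2 + 1 = b + 3 by ring] at h2
    have h3 : SC 0 (b + 3) * S = π / ((b : ℝ) + 3) := by
      push_cast at h2
      have e : π / (2 * ((b : ℝ) + 2 + 1)) = (π / ((b : ℝ) + 3)) / 2 := by field_simp; ring
      rw [e] at h2
      linarith
    calc _ = 1 / ((b : ℝ) + 2) * W * (π / ((b : ℝ) + 3)) := by
          push_cast
          field_simp
          ring
      _ = 1 / ((b : ℝ) + 2) * W * (SC 0 (b + 3) * S) := by rw [h3]
      _ = _ := by ring
  | one =>
    have h1 : SC b 1 = 1 / ((b : ℝ) + 1) := by rw [SC_symm]; exact TI.SC_one b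
    have h2 := TI.SC_one (b + 3)
    have h3 := Rot.TE.VW b
    have h4 := Rot.TE.V_rec (b + 1)
    rw [h1, h2, show 1 + b + 2 = b + 1 + 2 by ring, h4]
    set W := ∫ x in (0 : ℝ)..(π / 2), Real.sin x ^ b with hW
    set S := ∫ x in (0 : ℝ)..π, Real.sin x ^ (b + 1) with hS
    push_cast
    have e : 1 / ((b : ℝ) + 2) * W * (1 / ((b : ℝ) + 3 + 1)) *
        (((b : ℝ) + 1 + 1) / ((b : ℝ) + 1 + 2) * S) =
        1 / ((b : ℝ) + 4) * (1 / ((b : ℝ) + 3)) * (S * W) := by
      field_simp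
      ring
    rw [e, h3]
    field_simp
    ring
  | more a ih _ =>
    have h1 := TI.SC_right b a
    have h2 := TI.SC_left a (b + 3)
    have h3 := Rot.TE.V_rec (a + b + 2)
    rw [show a + 2 + b + 2 = a + b + 2 + 2 by ring, h3]
    set W := 1 / ((b : ℝ) + 2) * ∫ x in (0 : ℝ)..(π / 2), Real.sin x ^ b with hW
    set S := ∫ x in (0 : ℝ)..π, Real.sin x ^ (a + b + 2) with hS
    have h1' : SC b (a + 2) = ((a : ℝ) + 1) / ((a : ℝ) + b + 2) * SC b a := by
      field_simp
      linarith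
    have h2' : SC (a + 2) (b + 3) = ((a : ℝ) + 1) / ((a : ℝ) + b + 5) * SC a (b + 3) := by
      push_cast at h2
      field_simp
      linarith
    rw [h1', h2']
    push_cast
    calc _ = (π * SC b a / (((a : ℝ) + b + 2) * ((a : ℝ) + b + 3))) *
          ((((a : ℝ) + 1) * ((a : ℝ) + b + 3)) / (((a : ℝ) + b + 4) * ((a : ℝ) + b + 5))) := by
          field_simp
          ring
      _ = (W * SC a (b + 3) * S) *
          ((((a : ℝ) + 1) * ((a : ℝ) + b + 3)) / (((a : ℝ) + b + 4) * ((a : ℝ) + b + 5))) := by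
          rw [ih]
      _ = _ := by
          field_simp
          ring

lemma QD_measurable (R : ℝ) : MeasurableSet (QD R) := (Cr.isOpen_QD R).measurableSet

lemma QD_subset (R : ℝ) : QD R ⊆ Ioi (0 : ℝ) ×ˢ Ioi (0 : ℝ) := fun _ hc => ⟨hc.1, hc.2.1⟩

lemma QD_subset_Icc (R : ℝ) : QD R ⊆ Icc (0 : ℝ) R ×ˢ Icc (0 : ℝ) R := fun c hc => by
  obtain ⟨h1, h2, h3⟩ := hc
  have h4 := nn_sq c
  have h5 := nn_nonneg c
  refine ⟨⟨h1.le, ?_⟩, ⟨h2.le, ?_⟩⟩
  · nlinarith [sq_nonneg c.2]
  · nlinarith [sq_nonneg c.1]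

lemma gg_le {F H R : ℝ} (hF : 0 < F) (hH : 0 < H) (a b : ℕ) :
    ∫ c in QD R, gg F H a b c ≤
      F ^ (a + 1) * H ^ (b + 1) * ((∫ x in (0 : ℝ)..1, √(1 - x ^ 2) * x ^ b) * SC a (b + 3)) := by
  rw [← gg_integral hF hH]
  apply setIntegral_mono_set (gg_integrable hF hH a b)
  · filter_upwards [ae_restrict_mem (measurableSet_Ioi.prod measurableSet_Ioi)] with c hc
    exact gg_nonneg a b hc.1 hc.2
  · exact (QD_subset R).eventuallyLE

lemma gg_lt {F H R : ℝ} (hF : 0 < F) (hH : 0 < H) (hR : 0 < R) (hRF : R < F) (a b : ℕ) :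
    ∫ c in QD R, gg F H a b c <
      F ^ (a + 1) * H ^ (b + 1) * ((∫ x in (0 : ℝ)..1, √(1 - x ^ 2) * x ^ b) * SC a (b + 3)) := by
  rw [← gg_integral hF hH]
  set Q : Set (ℝ × ℝ) := Ioi (0 : ℝ) ×ˢ Ioi (0 : ℝ) with hQ
  have hi := gg_integrable hF hH a b
  have hQm : MeasurableSet Q := measurableSet_Ioi.prod measurableSet_Ioi
  have h1 : ∫ c in Q, gg F H a b c = (∫ c in Q \ QD R, gg F H a b c) + ∫ c in QD R, gg F H a b c := by
    rw [← setIntegral_union disjoint_sdiff_left (QD_measurable R) (hi.mono_set sdiff_subset)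
      (hi.mono_set (QD_subset R)), sdiff_union_of_subset (QD_subset R)]
  rw [h1]
  have h2 : 0 < ∫ c in Q \ QD R, gg F H a b c := by
    rw [setIntegral_pos_iff_support_of_nonneg_ae]
    · -- an open set in the support
      set U : Set (ℝ × ℝ) := {c | R < c.1 ∧ 0 < c.2 ∧ (c.1 / F) ^ 2 + (c.2 / H) ^ 2 < 1} with hU
      have hUo : IsOpen U := by
        have o1 : IsOpen {c : ℝ × ℝ | R < c.1} := isOpen_lt continuous_const continuous_fst
        have o2 : IsOpen {c : ℝ × ℝ | 0 < c.2} := isOpen_lt continuous_const continuous_snd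
        have o3 : IsOpen {c : ℝ × ℝ | (c.1 / F) ^ 2 + (c.2 / H) ^ 2 < 1} :=
          isOpen_lt (by fun_prop) continuous_const
        exact o1.inter (o2.inter o3)
      have hUn : U.Nonempty := by
        set x := (R + F) / 2 with hx
        have hx1 : R < x := by rw [hx]; linarith
        have hx2 : x < F := by rw [hx]; linarith
        have hx0 : 0 < x := hR.trans hx1
        have hxF : (x / F) ^ 2 < 1 := by
          have h3 : x / F < 1 := by rwa [div_lt_one hF]
          have h4 : 0 < x / F := by positivity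
          nlinarith
        set δ := 1 - (x / F) ^ 2 with hδ
        have hδ0 : 0 < δ := by rw [hδ]; linarith
        have hδ1 : δ ≤ 1 := by rw [hδ]; nlinarith [sq_nonneg (x / F)]
        refine ⟨(x, H * (δ / 2)), hx1, by positivity, ?_⟩
        simp only
        have h5 : H * (δ / 2) / H = δ / 2 := by field_simp
        rw [h5]
        nlinarith
      refine (hUo.measure_pos volume hUn).trans_le (measure_mono ?_)
      intro c hc
      have hc1 : 0 < c.1 := hR.trans hc.1
      refine ⟨?_, ⟨⟨hc1, hc.2.1⟩, fun h => ?_⟩⟩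
      · rw [Function.mem_support]
        unfold gg
        have h6 : 0 < √(1 - ((c.1 / F) ^ 2 + (c.2 / H) ^ 2)) := Real.sqrt_pos.2 (by linarith [hc.2.2])
        have h7 : 0 < c.1 ^ a * c.2 ^ b := mul_pos (pow_pos hc1 a) (pow_pos hc.2.1 b)
        positivity
      · have h8 := (QD_subset_Icc R h).1.2
        linarith [hc.1]
    · filter_upwards [ae_restrict_mem (hQm.diff (QD_measurable R))] with c hc
      exact gg_nonneg a b hc.1.1 hc.1.2
    · exact hi.mono_set sdiff_subset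
  linarith

lemma nn_polar {ρ θ : ℝ} (hρ : 0 ≤ ρ) : nn (ρ * cos θ, ρ * sin θ) = ρ := by
  unfold nn
  have : (ρ * cos θ) ^ 2 + (ρ * sin θ) ^ 2 = ρ ^ 2 := by
    have := Real.sin_sq_add_cos_sq θ
    linear_combination ρ ^ 2 * this
  simp only [this]
  exact Real.sqrt_sq hρ

lemma lower_int {R : ℝ} (hR : 0 < R) (a b : ℕ) :
    ∫ c in QD R, 2 * π * (R - nn c) * (c.1 ^ a * c.2 ^ b) =
      2 * π * SC b a * (R ^ (a + b + 3) / (((a : ℝ) + b + 2) * ((a : ℝ) + b + 3))) := by
  rw [← integral_indicator (QD_measurable R), ← integral_comp_polarCoord_symm, polarCoord_target]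
  set g : ℝ × ℝ → ℝ := fun c => 2 * π * (R - nn c) * (c.1 ^ a * c.2 ^ b) with hg
  set A : Set (ℝ × ℝ) := Ioo (0 : ℝ) R ×ˢ Ioo (0 : ℝ) (π / 2) with hA
  have hπ := Real.pi_pos
  have hsub : A ⊆ Ioi (0 : ℝ) ×ˢ Ioo (-π) π := by
    rintro x ⟨⟨h1, h2⟩, ⟨h3, h4⟩⟩
    exact ⟨h1, by constructor <;> linarith⟩
  have e1 : ∫ x in Ioi (0 : ℝ) ×ˢ Ioo (-π) π, x.1 • (QD R).indicator g (polarCoord.symm x) =
      ∫ x in A, x.1 • (QD R).indicator g (polarCoord.symm x) := by
    refine setIntegral_eq_of_subset_of_forall_sdiff_eq_zero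
      (measurableSet_Ioi.prod measurableSet_Ioo) hsub ?_
    rintro x ⟨⟨h1, h2, h3⟩, h4⟩
    have h1' : 0 < x.1 := h1
    rw [indicator_of_notMem, smul_zero]
    intro h5
    apply h4
    obtain ⟨h6, h7, h8⟩ := h5
    simp only [polarCoord_symm_apply] at h6 h7 h8
    rw [nn_polar h1'.le] at h8
    have hs : 0 < sin x.2 := pos_of_mul_pos_right h7 h1'.le |> fun h => h
    have hc : 0 < cos x.2 := pos_of_mul_pos_right h6 h1'.le |> fun h => h
    refine ⟨⟨h1, h8⟩, ?_, ?_⟩
    · by_contra hcon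
      have := Real.sin_nonpos_of_nonpos_of_neg_pi_le (not_lt.1 hcon) h2.le
      linarith
    · by_contra hcon
      have := Real.cos_nonpos_of_pi_div_two_le_of_le (not_lt.1 hcon) (by linarith)
      linarith
  rw [e1]
  have e2 : ∫ x in A, x.1 • (QD R).indicator g (polarCoord.symm x) =
      ∫ x in A, (2 * π * ((R - x.1) * x.1 ^ (a + b + 1))) * (Real.sin x.2 ^ b * Real.cos x.2 ^ a) := by
    refine setIntegral_congr_fun (measurableSet_Ioo.prod measurableSet_Ioo) ?_
    rintro x ⟨⟨h1, h2⟩, ⟨h3, h4⟩⟩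
    have hs : 0 < sin x.2 := Real.sin_pos_of_pos_of_lt_pi h3 (by linarith)
    have hc : 0 < cos x.2 := Real.cos_pos_of_mem_Ioo ⟨by linarith, h4⟩
    have hmem : polarCoord.symm x ∈ QD R := by
      simp only [polarCoord_symm_apply]
      refine ⟨mul_pos h1 hc, mul_pos h1 hs, ?_⟩
      rw [nn_polar h1.le]
      exact h2
    simp only
    rw [indicator_of_mem hmem, hg]
    simp only [polarCoord_symm_apply]
    rw [nn_polar h1.le, smul_eq_mul]
    ring
  rw [e2, hA, Measure.volume_eq_prod]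
  rw [setIntegral_prod_mul (fun ρ : ℝ => 2 * π * ((R - ρ) * ρ ^ (a + b + 1)))
    (fun θ : ℝ => Real.sin θ ^ b * Real.cos θ ^ a) (Ioo 0 R) (Ioo 0 (π / 2))]
  rw [← integral_Ioc_eq_integral_Ioo, ← intervalIntegral.integral_of_le hR.le,
    ← integral_Ioc_eq_integral_Ioo, ← intervalIntegral.integral_of_le (by positivity)]
  have e3 : ∫ ρ in (0 : ℝ)..R, 2 * π * ((R - ρ) * ρ ^ (a + b + 1)) =
      2 * π * (R ^ (a + b + 3) / (((a : ℝ) + b + 2) * ((a : ℝ) + b + 3))) := by
    rw [intervalIntegral.integral_const_mul]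
    congr 1
    have e4 : ∀ ρ : ℝ, (R - ρ) * ρ ^ (a + b + 1) = R * ρ ^ (a + b + 1) - ρ ^ (a + b + 2) := by
      intro ρ; ring
    simp_rw [e4]
    rw [intervalIntegral.integral_sub (Continuous.intervalIntegrable (by fun_prop) _ _)
      (Continuous.intervalIntegrable (by fun_prop) _ _), intervalIntegral.integral_const_mul,
      integral_pow, integral_pow]
    push_cast
    field_simp
    ring
  rw [e3]
  unfold SC
  ring

theorem volume_bound {L : ℝ} {f h : ℝ → ℝ} (hf : PP2 L f h) (a b : ℕ) {R : ℝ} (hR : 0 < R)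
    (hA : ∀ c ∈ QD R, 2 * π * (R - nn c) ≤ 2 * ∫ r in Ioo 0 L, √(1 - Veff f h c.1 c.2 r))
    (hbig : ∃ r, 0 < r ∧ r < L ∧ R < f r) :
    R ^ (a + b + 3) * (∫ t in (0 : ℝ)..π, Real.sin t ^ (a + b + 2)) <
      ∫ r in (0 : ℝ)..L, f r ^ (a + 1) * h r ^ (b + 1) := by
  have hfc : Continuous f := hf.pf.smooth.continuous
  have hhc : Continuous h := hf.ph.smooth.continuous
  have hfm : Measurable f := hfc.measurable
  have hhm : Measurable h := hhc.measurable
  set J1 := ∫ x in (0 : ℝ)..1, √(1 - x ^ 2) * x ^ b with hJ1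
  set K := J1 * SC a (b + 3) with hK
  set S := ∫ t in (0 : ℝ)..π, Real.sin t ^ (a + b + 2) with hS
  set μ : Measure ℝ := volume.restrict (Ioo 0 L) with hμ
  set ν : Measure (ℝ × ℝ) := volume.restrict (QD R) with hν
  have hTfin : volume (QD R) ≠ ⊤ := by
    have h1 : volume (Icc (0 : ℝ) R ×ˢ Icc (0 : ℝ) R) < ⊤ :=
      (isCompact_Icc.prod isCompact_Icc).measure_lt_top
    exact ((measure_mono (QD_subset_Icc R)).trans_lt h1).ne
  have : IsFiniteMeasure ν := ⟨by rw [hν, Measure.restrict_apply_univ]; exact lt_top_iff_ne_top.2 hTfin⟩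
  have : IsFiniteMeasure μ := ⟨by rw [hμ, Measure.restrict_apply_univ]; simp⟩
  have hmeas : Measurable (fun p : ℝ × (ℝ × ℝ) => gg (f p.1) (h p.1) a b p.2) := by
    unfold gg
    fun_prop
  have hint : Integrable (fun p : ℝ × (ℝ × ℝ) => gg (f p.1) (h p.1) a b p.2) (μ.prod ν) := by
    have hb : ∀ᵐ p ∂(μ.prod ν), ‖gg (f p.1) (h p.1) a b p.2‖ ≤ R ^ a * R ^ b := by
      have e : μ.prod ν = (volume.prod volume).restrict (Ioo 0 L ×ˢ QD R) := by
        rw [hμ, hν, Measure.prod_restrict]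
      rw [e]
      filter_upwards [ae_restrict_mem (measurableSet_Ioo.prod (QD_measurable R))] with p hp
      have h1 := (QD_subset_Icc R) hp.2
      exact gg_bound a b hp.2.1 hp.2.2.1 h1.1.2 h1.2.2
    exact Integrable.of_bound hmeas.aestronglyMeasurable _ hb
  have hswap := integral_integral_swap (f := fun r c => gg (f r) (h r) a b c) (μ := μ) (ν := ν) hint
  have hact : ∀ c : ℝ × ℝ, (2 * ∫ r in Ioo 0 L, √(1 - Veff f h c.1 c.2 r)) * (c.1 ^ a * c.2 ^ b) =
      2 * ∫ r, gg (f r) (h r) a b c ∂μ := by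
    intro c
    rw [mul_assoc, ← integral_mul_const]
    rfl
  have h1 : 2 * π * SC b a * (R ^ (a + b + 3) / (((a : ℝ) + b + 2) * ((a : ℝ) + b + 3))) ≤
      2 * ∫ c, ∫ r, gg (f r) (h r) a b c ∂μ ∂ν := by
    rw [← lower_int hR, ← integral_const_mul]
    apply setIntegral_mono_on _ _ (QD_measurable R)
    · intro c hc
      rw [← hact]
      apply mul_le_mul_of_nonneg_right (hA c hc)
      have := hc.1
      have := hc.2.1
      positivity
    · have h2 : IntegrableOn (fun c : ℝ × ℝ => 2 * π * (R - nn c) * (c.1 ^ a * c.2 ^ b))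
          (Icc (0 : ℝ) R ×ˢ Icc (0 : ℝ) R) :=
        (Continuous.continuousOn (by
          have := nn_cont
          fun_prop)).integrableOn_compact (isCompact_Icc.prod isCompact_Icc)
      exact h2.mono_set (QD_subset_Icc R)
    · exact (hint.integral_prod_right).const_mul 2
  rw [← hswap] at h1
  have hIm : Integrable (fun r => ∫ c, gg (f r) (h r) a b c ∂ν) μ := hint.integral_prod_left
  have hfi : Integrable (fun r => f r ^ (a + 1) * h r ^ (b + 1) * K) μ := by
    have h3 : IntegrableOn (fun r => f r ^ (a + 1) * h r ^ (b + 1) * K) (Icc 0 L) :=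
      (Continuous.continuousOn (by fun_prop)).integrableOn_Icc
    exact h3.mono_set Ioo_subset_Icc_self
  have h3 : ∫ r, ∫ c, gg (f r) (h r) a b c ∂ν ∂μ < ∫ r, f r ^ (a + 1) * h r ^ (b + 1) * K ∂μ := by
    rw [← sub_pos, ← integral_sub hfi hIm]
    rw [integral_pos_iff_support_of_nonneg_ae]
    · obtain ⟨r₀, hr0, hrL, hrR⟩ := hbig
      have hopen : IsOpen (Ioo 0 L ∩ {r | R < f r}) := isOpen_Ioo.inter (isOpen_lt continuous_const hfc)
      have hpos : 0 < volume (Ioo 0 L ∩ {r | R < f r}) :=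
        hopen.measure_pos volume ⟨r₀, ⟨hr0, hrL⟩, hrR⟩
      have hμpos : 0 < μ (Ioo 0 L ∩ {r | R < f r}) := by
        rw [hμ, Measure.restrict_apply hopen.measurableSet]
        have : Ioo 0 L ∩ {r | R < f r} ∩ Ioo 0 L = Ioo 0 L ∩ {r | R < f r} := by
          ext x; simp; tauto
        rwa [this]
      refine hμpos.trans_le (measure_mono ?_)
      intro r hr
      rw [Function.mem_support]
      have h5 := gg_lt (hR.trans hr.2) (hf.ph.fpos r hr.1.1 hr.1.2) hR hr.2 a b
      exact (sub_pos.mpr h5).ne'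
    · have hae : ∀ᵐ r ∂μ, r ∈ Ioo 0 L := ae_restrict_mem measurableSet_Ioo
      filter_upwards [hae] with r hr
      have h5 := gg_le (R := R) (hf.pf.fpos r hr.1 hr.2) (hf.ph.fpos r hr.1 hr.2) a b
      simp only [Pi.zero_apply]
      exact sub_nonneg.2 h5
    · exact hfi.sub hIm
  have h4 : ∫ r, f r ^ (a + 1) * h r ^ (b + 1) * K ∂μ = K * ∫ r in (0 : ℝ)..L, f r ^ (a + 1) * h r ^ (b + 1) := by
    rw [integral_mul_const, intervalIntegral.integral_of_le hf.pf.pos.le, hμ,
      integral_Ioc_eq_integral_Ioo, mul_comm]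
  have hid := const_id a b
  rw [← hJ1, ← hK, ← hS] at hid
  have hSpos : ∀ p q : ℕ, 0 < SC p q := by
    intro p q
    apply intervalIntegral.intervalIntegral_pos_of_pos_on
      (Continuous.intervalIntegrable (by fun_prop) _ _) _ (by positivity)
    intro x hx
    have h5 := Real.sin_pos_of_pos_of_lt_pi hx.1 (by linarith [hx.2, Real.pi_pos])
    have h6 : 0 < Real.cos x := Real.cos_pos_of_mem_Ioo ⟨by linarith [hx.1, Real.pi_pos], hx.2⟩
    positivity
  have hWpos : 0 < ∫ x in (0 : ℝ)..(π / 2), Real.sin x ^ b := by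
    have := hSpos b 0
    unfold SC at this
    simpa using this
  have hKpos : 0 < K := by
    have hB : J1 = (1 / ((b : ℝ) + 2)) * ∫ x in (0 : ℝ)..(π / 2), Real.sin x ^ b := Rot.TE.B_eq b
    rw [hK, hB]
    have := hSpos a (b + 3)
    positivity
  have h6 : 2 * π * SC b a * (R ^ (a + b + 3) / (((a : ℝ) + b + 2) * ((a : ℝ) + b + 3))) =
      2 * K * (R ^ (a + b + 3) * S) := by
    calc _ = 2 * R ^ (a + b + 3) * (π * SC b a / (((a : ℝ) + b + 2) * ((a : ℝ) + b + 3))) := by ring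
      _ = 2 * R ^ (a + b + 3) * (K * S) := by rw [hid]
      _ = _ := by ring
  rw [h6] at h1
  rw [h4] at h3
  have h7 : 2 * K * (R ^ (a + b + 3) * S) <
      2 * K * ∫ r in (0 : ℝ)..L, f r ^ (a + 1) * h r ^ (b + 1) := by
    calc _ ≤ _ := h1
      _ < 2 * (K * ∫ r in (0 : ℝ)..L, f r ^ (a + 1) * h r ^ (b + 1)) := by linarith
      _ = _ := by ring
  exact lt_of_mul_lt_mul_left h7 (by positivity)

end Pool.Agent.L7h84.CL.Vl
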