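import Pool.Agent.L7h84.CL.Sel
import Pool.Agent.L7h84.CL.Vol

/-! # The main theorem -/

open Real Set MeasureTheory Filter Topology
open scoped ContDiff

namespace Pool.Agent.L7h84.CL

open Pool.Agent.H206R2 Pool.Agent.H206R2.Rot2 Pool.Agent.L7h84.CL.Mn

variable {N p : ℕ} {J : Fin p → EE N →L[ℝ] EE N}

lemma actW_le {L : ℝ} {f h : ℝ → ℝ} (hf : PP2 L f h) (c₁ c₂ s : ℝ) :
    actW L (Veff f h c₁ c₂) s ≤ 2 * ∫ r in Ioo 0 L, √(1 - Veff f h c₁ c₂ r) := by
  unfold actW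
  have h1 : IntegrableOn (fun r => √(1 - Veff f h c₁ c₂ r)) (Ioo 0 L) := intOn hf c₁ c₂ (by simp)
  have h2 := setIntegral_mono_set h1
    (Filter.Eventually.of_forall fun r => Real.sqrt_nonneg (1 - Veff f h c₁ c₂ r))
    (Mn.well_sub L (Veff f h c₁ c₂) s).eventuallyLE
  linarith

lemma veff_deriv {L : ℝ} {f h : ℝ → ℝ} (hf : PP2 L f h) (c₁ c₂ : ℝ) {x : ℝ} (h0 : 0 < x)
    (hL : x < L) : deriv (Veff f h c₁ c₂) x =
      -(2 * (deriv f x * (c₁ ^ 2 / f x ^ 3) + deriv h x * (c₂ ^ 2 / h x ^ 3))) := by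
  have hf0 := (hf.pf.fpos x h0 hL).ne'
  have hh0 := (hf.ph.fpos x h0 hL).ne'
  have d1 : HasDerivAt f (deriv f x) x :=
    (hf.pf.smooth.differentiable (by simp)).differentiableAt.hasDerivAt
  have d2 : HasDerivAt h (deriv h x) x :=
    (hf.ph.smooth.differentiable (by simp)).differentiableAt.hasDerivAt
  have h1 := (((hasDerivAt_const x c₁).fun_div d1 hf0).fun_pow 2).fun_add
    (((hasDerivAt_const x c₂).fun_div d2 hh0).fun_pow 2)
  have h2 : HasDerivAt (Veff f h c₁ c₂) _ x := h1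
  rw [h2.deriv]
  simp only [show 2 - 1 = 1 from rfl, pow_one, Nat.cast_ofNat]
  field_simp
  ring

theorem main {L : ℝ} {a b : ℝ → ℝ} (hJ : IsClifford J) (hp : 1 ≤ p) (hN : 2 * p < N)
    (ha : Rot.IsProfile L a) (hb : Rot.IsProfile L b) :
    ∃ (γ : ℝ → EuclideanSpace ℝ (Fin N) × ℝ) (T : ℝ), 0 < T ∧ IsGeodesicC J L a b 1 γ ∧
      (∀ t, γ (t + T) = γ t) ∧
      T ^ N * (∫ t in (0 : ℝ)..π, Real.sin t ^ (N - 1)) ≤
        (2 * π) ^ N * ∫ r in (0 : ℝ)..L, a r ^ p * b r ^ (N - 1 - p) := by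
  set i₀ : Fin p := ⟨0, hp⟩ with hi₀
  obtain ⟨e, f, he, hf, hh1, hh2⟩ := exists_hor (J := J) i₀ hN
  have G : Good J i₀ e f := ⟨hJ, he, hf, hh1, hh2⟩
  have hPP : PP2 L a b := ⟨ha, hb⟩
  have hac : Continuous a := ha.smooth.continuous
  have hbc : Continuous b := hb.smooth.continuous
  have had : Differentiable ℝ a := ha.smooth.differentiable (by simp)
  have hbd : Differentiable ℝ b := hb.smooth.differentiable (by simp)
  have hLpos := ha.pos
  have hpi := Real.pi_pos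
  obtain ⟨A, hAp⟩ : ∃ A, p = A + 1 := ⟨p - 1, by omega⟩
  obtain ⟨B, hBp⟩ : ∃ B, N - 1 - p = B + 1 := ⟨N - 1 - p - 1, by omega⟩
  have hNAB : N = A + B + 3 := by omega
  have hN1 : N - 1 = A + B + 2 := by omega
  rw [hBp, hN1]
  have hpow : ∀ r, a r ^ p * b r ^ (B + 1) = a r ^ (A + 1) * b r ^ (B + 1) := fun r => by rw [hAp]
  simp only [hpow]
  set W : ℝ := ∫ t in (0 : ℝ)..π, Real.sin t ^ (A + B + 2) with hWdef
  set V : ℝ := ∫ r in (0 : ℝ)..L, a r ^ (A + 1) * b r ^ (B + 1) with hVdef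
  have hN0 : N ≠ 0 := by omega
  have hW : 0 < W := by
    refine intervalIntegral.intervalIntegral_pos_of_pos_on
      ((Real.continuous_sin.pow _).intervalIntegrable _ _)
      (fun x hx => pow_pos (Real.sin_pos_of_pos_of_lt_pi hx.1 hx.2) _) hpi
  have hV : 0 < V := by
    refine intervalIntegral.intervalIntegral_pos_of_pos_on
      (((hac.pow _).mul (hbc.pow _)).intervalIntegrable _ _) (fun x hx => ?_) hLpos
    exact mul_pos (pow_pos (ha.fpos x hx.1 hx.2) _) (pow_pos (hb.fpos x hx.1 hx.2) _)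
  obtain ⟨R, hR, hRn⟩ : ∃ R : ℝ, 0 < R ∧ R ^ N * W = V := by
    refine ⟨(V / W) ^ ((N : ℝ)⁻¹), Real.rpow_pos_of_pos (div_pos hV hW) _, ?_⟩
    rw [Real.rpow_inv_natCast_pow (div_pos hV hW).le hN0]
    field_simp
  suffices hmain : ∃ (γ : ℝ → EuclideanSpace ℝ (Fin N) × ℝ) (T : ℝ),
      0 < T ∧ IsGeodesicC J L a b 1 γ ∧ (∀ t, γ (t + T) = γ t) ∧ T ≤ 2 * π * R by
    obtain ⟨γ, T, hT, hγ, hper, hle⟩ := hmain
    refine ⟨γ, T, hT, hγ, hper, ?_⟩
    have h1 : T ^ N ≤ (2 * π * R) ^ N := pow_le_pow_left₀ hT.le hle N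
    calc T ^ N * W ≤ (2 * π * R) ^ N * W := mul_le_mul_of_nonneg_right h1 hW.le
      _ = (2 * π) ^ N * (R ^ N * W) := by rw [mul_pow]; ring
      _ = (2 * π) ^ N * V := by rw [hRn]
  by_contra hcon
  have hno : ∀ (γ : ℝ → EuclideanSpace ℝ (Fin N) × ℝ) (T : ℝ), 0 < T →
      IsGeodesicC J L a b 1 γ → (∀ t, γ (t + T) = γ t) → 2 * π * R < T := by
    intro γ T hT hγ hper
    by_contra hle
    exact hcon ⟨γ, T, hT, hγ, hper, not_lt.1 hle⟩
  -- the two surfaces of revolution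
  have hnoA : ∀ (γ : ℝ → EuclideanSpace ℝ (Fin 2) × ℝ) (T : ℝ), 0 < T → Rot.IsGeodesic L a 1 γ →
      (∀ t, γ (t + T) = γ t) → 2 * π * R < T := fun γ T hT hγ hper =>
    hno _ T hT (liftA G had hγ) fun t => by simp only [hper]
  have hnoB : ∀ (γ : ℝ → EuclideanSpace ℝ (Fin 2) × ℝ) (T : ℝ), 0 < T → Rot.IsGeodesic L b 1 γ →
      (∀ t, γ (t + T) = γ t) → 2 * π * R < T := fun γ T hT hγ hper =>
    hno _ T hT (liftB G hbd hγ) fun t => by simp only [hper]
  have hEa := Edge.rot_edge ha le_rfl hR hnoA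
  have hEb := Edge.rot_edge hb le_rfl hR hnoB
  have hca : ∀ r, 0 < r → r < L → deriv a r = 0 → R < a r := by
    intro r h0 hrL hd
    obtain ⟨γ, h1, h2⟩ := Rot.TG.parallel ha (le_refl 2) h0 hrL hd
    have hfr := ha.fpos r h0 hrL
    have := hnoA γ (2 * π * a r) (by positivity) h1 h2
    exact lt_of_mul_lt_mul_left this (by positivity)
  have hcb : ∀ r, 0 < r → r < L → deriv b r = 0 → R < b r := by
    intro r h0 hrL hd
    obtain ⟨γ, h1, h2⟩ := Rot.TG.parallel hb (le_refl 2) h0 hrL hd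
    have hfr := hb.fpos r h0 hrL
    have := hnoB γ (2 * π * b r) (by positivity) h1 h2
    exact lt_of_mul_lt_mul_left this (by positivity)
  obtain ⟨S₁, α₁, β₁, hS₁, w₁⟩ := Rot.TA.exists_wall ha hR hca
  obtain ⟨S₂, α₂, β₂, hS₂, w₂⟩ := Rot.TA.exists_wall hb hR hcb
  obtain ⟨s, hs0, hsL, hsa, hsb⟩ := exists_s ha hb w₁ w₂ hS₁ hS₂ (by
    intro r h0 hrL hab hd
    obtain ⟨γ, h1, h2⟩ := crossing G ha h0 hrL hab hd
    have hfr := ha.fpos r h0 hrL
    have := hno γ (2 * π * a r) (by positivity) h1 h2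
    exact lt_of_mul_lt_mul_left this (by positivity))
  have wa := wl_of_wall ha w₁ hS₁ hs0 hsL hsa
  have wb := wl_of_wall hb w₂ hS₂ hs0 hsL hsb
  by_cases hneg : ∃ c ∈ QD R, actW L (Veff a b c.1 c.2) s < 2 * π * (R - nn c)
  swap
  · push Not at hneg
    have h1 := Vl.volume_bound hPP A B hR (fun c hc => (hneg c hc).trans (actW_le hPP _ _ _))
      ⟨s, hs0, hsL, hsa⟩
    rw [← hWdef, ← hVdef, ← hNAB, hRn] at h1
    exact lt_irrefl _ h1
  obtain ⟨c, hc, hDneg, hmin⟩ := exists_min hPP hR wa wb hEa hEb hneg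
  have hVs : Veff a b c.1 c.2 s < 1 := Veff_s_lt hsa hsb hR hc
  obtain ⟨u, q, hu, hus, hsq, hq, hVu, hVq, hw, hin⟩ := well_spec hPP hc.1 hc.2.1 hs0 hsL hVs
  obtain ⟨hint, hΦ1, hΦ2, hu', hq'⟩ := Cr.crit hPP hc hmin hu hus hsq hq hVu hVq hw hin
  have hn := Cr.nn_pos hc
  have hn2 := nn_sq c
  have huq : u < q := hus.trans hsq
  obtain ⟨r, T, hT, hTeq, hr, hrI, hr2, hr1, hrT, hrint⟩ :=
    TH.oscillator hu huq hq (Cr.veff_contDiffOn hPP c.1 c.2) hVu hVq hu' hq' hin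
  have hrpos : ∀ t, 0 < r t ∧ r t < L := fun t =>
    ⟨hu.trans_le (hrI t).1, (hrI t).2.trans_lt hq⟩
  have hane : ∀ x ∈ Icc u q, a x ≠ 0 := fun x hx =>
    (ha.fpos x (hu.trans_le hx.1) (hx.2.trans_lt hq)).ne'
  have hbne : ∀ x ∈ Icc u q, b x ≠ 0 := fun x hx =>
    (hb.fpos x (hu.trans_le hx.1) (hx.2.trans_lt hq)).ne'
  obtain ⟨θ₁, hθ₁, hθ₁d, hθ₁T⟩ := Pre.angle (c := c.1) hr hrI ha.smooth hane hrT
  obtain ⟨θ₂, hθ₂, hθ₂d, hθ₂T⟩ := Pre.angle (c := c.2) hr hrI hb.smooth hbne hrT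
  have hA1 : ∫ t in (0 : ℝ)..T, c.1 / a (r t) ^ 2 = 2 * π * c.1 / nn c := by
    rw [hrint (fun x => c.1 / a x ^ 2)
      (continuousOn_const.div (hac.continuousOn.pow 2) fun x hx => pow_ne_zero 2 (hane x hx))]
    simp only [div_div]
    exact hΦ1
  have hA2 : ∫ t in (0 : ℝ)..T, c.2 / b (r t) ^ 2 = 2 * π * c.2 / nn c := by
    rw [hrint (fun x => c.2 / b x ^ 2)
      (continuousOn_const.div (hbc.continuousOn.pow 2) fun x hx => pow_ne_zero 2 (hbne x hx))]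
    simp only [div_div]
    exact hΦ2
  -- the length of one oscillation
  have hTlt : T < 2 * π * R := by
    have e : ∀ x ∈ Ioo u q, 1 / √(1 - Veff a b c.1 c.2 x) = √(1 - Veff a b c.1 c.2 x)
        + (c.1 * (c.1 / (a x ^ 2 * √(1 - Veff a b c.1 c.2 x)))
        + c.2 * (c.2 / (b x ^ 2 * √(1 - Veff a b c.1 c.2 x)))) := by
      intro x hx
      have hx1 : 0 < 1 - Veff a b c.1 c.2 x := by linarith [hin x hx]
      have hsq := Real.sq_sqrt hx1.le
      have hsp := Real.sqrt_pos.2 hx1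
      have hfx := hane x ⟨hx.1.le, hx.2.le⟩
      have hhx := hbne x ⟨hx.1.le, hx.2.le⟩
      have hVx : Veff a b c.1 c.2 x = (c.1 / a x) ^ 2 + (c.2 / b x) ^ 2 := rfl
      set y := √(1 - Veff a b c.1 c.2 x) with hy
      have h3 : y ^ 2 = 1 - ((c.1 / a x) ^ 2 + (c.2 / b x) ^ 2) := by rw [hsq, hVx]
      have h4 : 1 = y ^ 2 + (c.1 ^ 2 / a x ^ 2 + c.2 ^ 2 / b x ^ 2) := by
        rw [h3, div_pow, div_pow]; ring
      have h5 : 1 / y = (y ^ 2 + (c.1 ^ 2 / a x ^ 2 + c.2 ^ 2 / b x ^ 2)) / y := by rw [← h4]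
      rw [h5]
      field_simp
    have hbdd : ∀ {g : ℝ → ℝ} (d : ℝ), Continuous g → (∀ x ∈ Icc u q, g x ≠ 0) →
        IntegrableOn (fun x => d / (g x ^ 2 * √(1 - Veff a b c.1 c.2 x))) (Ioo u q) := by
      intro g d hg hg0
      have hcont : ContinuousOn (fun x => d / g x ^ 2) (Icc u q) :=
        continuousOn_const.div (hg.continuousOn.pow 2) fun x hx => pow_ne_zero 2 (hg0 x hx)
      obtain ⟨M, hM⟩ := isCompact_Icc.exists_bound_of_continuousOn hcont
      have h1 : IntegrableOn (fun x => (d / g x ^ 2) * (1 / √(1 - Veff a b c.1 c.2 x)))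
          (Ioo u q) := by
        refine Integrable.bdd_mul (c := M) hint
          ((hcont.mono Ioo_subset_Icc_self).aestronglyMeasurable measurableSet_Ioo) ?_
        exact (ae_restrict_iff' measurableSet_Ioo).2 (Filter.Eventually.of_forall fun x hx =>
          hM x (Ioo_subset_Icc_self hx))
      refine h1.congr_fun (fun x _ => ?_) measurableSet_Ioo
      simp only [mul_one_div, div_div]
    have i1 := hbdd c.1 hac hane
    have i2 := hbdd c.2 hbc hbne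
    have i0 : IntegrableOn (fun x => √(1 - Veff a b c.1 c.2 x)) (Ioo u q) := by
      have h1 := (hint.sub ((i1.const_mul c.1).add (i2.const_mul c.2)))
      refine h1.congr_fun (fun x hx => ?_) measurableSet_Ioo
      simp only [Pi.sub_apply, Pi.add_apply]
      linarith [e x hx]
    have h1 : ∫ x in Ioo u q, 1 / √(1 - Veff a b c.1 c.2 x) =
        (∫ x in Ioo u q, √(1 - Veff a b c.1 c.2 x)) +
        (c.1 * (∫ x in Ioo u q, c.1 / (a x ^ 2 * √(1 - Veff a b c.1 c.2 x))) +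
        c.2 * (∫ x in Ioo u q, c.2 / (b x ^ 2 * √(1 - Veff a b c.1 c.2 x)))) := by
      have j12 : IntegrableOn (fun x => c.1 * (c.1 / (a x ^ 2 * √(1 - Veff a b c.1 c.2 x)))
          + c.2 * (c.2 / (b x ^ 2 * √(1 - Veff a b c.1 c.2 x)))) (Ioo u q) :=
        (i1.const_mul c.1).add (i2.const_mul c.2)
      rw [setIntegral_congr_fun measurableSet_Ioo e, integral_add i0 j12,
        integral_add (i1.const_mul c.1) (i2.const_mul c.2), integral_const_mul, integral_const_mul]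
    have h2 : actW L (Veff a b c.1 c.2) s = 2 * ∫ x in Ioo u q, √(1 - Veff a b c.1 c.2 x) := by
      rw [actW, hw]
    rw [h2] at hDneg
    rw [hTeq, h1]
    have g1 : c.1 * (2 * ∫ x in Ioo u q, c.1 / (a x ^ 2 * √(1 - Veff a b c.1 c.2 x))) =
        2 * π * c.1 ^ 2 / nn c := by rw [hΦ1]; ring
    have g2 : c.2 * (2 * ∫ x in Ioo u q, c.2 / (b x ^ 2 * √(1 - Veff a b c.1 c.2 x))) =
        2 * π * c.2 ^ 2 / nn c := by rw [hΦ2]; ring
    have g3 : 2 * π * c.1 ^ 2 / nn c + 2 * π * c.2 ^ 2 / nn c = 2 * π * nn c := by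
      field_simp
      linarith
    linarith
  -- the closed geodesic
  have hc1 := hc.1
  have hc2 := hc.2.1
  obtain ⟨γ, hγ, hper⟩ := planarC G (L := L) (a := a) (b := b) (r := r)
    (α := fun t => θ₁ t - c.1 / c.2 * θ₂ t) (β := fun t => nn c / c.2 * θ₂ t)
    (x := c.1) (y := c.2) (m := nn c) (T := T) hn hn2.symm hr
    (hθ₁.sub (contDiff_const.mul hθ₂)) (contDiff_const.mul hθ₂)
    (fun t => hane _ ⟨(hrI t).1, (hrI t).2⟩) (fun t => hbne _ ⟨(hrI t).1, (hrI t).2⟩)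
    (fun t => by
      rw [hr2, veff_deriv hPP c.1 c.2 (hrpos t).1 (hrpos t).2]
      ring)
    (fun t => by
      have d1 : HasDerivAt θ₁ (deriv θ₁ t) t :=
        (hθ₁.differentiable (by norm_num)).differentiableAt.hasDerivAt
      have d2 : HasDerivAt θ₂ (deriv θ₂ t) t :=
        (hθ₂.differentiable (by norm_num)).differentiableAt.hasDerivAt
      rw [(d1.fun_sub (d2.const_mul (c.1 / c.2))).deriv, hθ₁d, hθ₂d]
      have := hbne (r t) ⟨(hrI t).1, (hrI t).2⟩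
      have := hane (r t) ⟨(hrI t).1, (hrI t).2⟩
      field_simp)
    (fun t => by
      have d2 : HasDerivAt θ₂ (deriv θ₂ t) t :=
        (hθ₂.differentiable (by norm_num)).differentiableAt.hasDerivAt
      rw [(d2.const_mul (nn c / c.2)).deriv, hθ₂d]
      have := hbne (r t) ⟨(hrI t).1, (hrI t).2⟩
      field_simp)
    (fun t => by
      rw [hr1]
      unfold Veff
      ring)
    hrT
    (fun t => by
      rw [hθ₁T, hθ₂T, hA1, hA2]
      field_simp
      ring)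
    (fun t => by
      rw [hθ₂T, hA2]
      field_simp)
  have := hno γ T hT hγ hper
  linarith

end Pool.Agent.L7h84.CL
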