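import Pool.Agent.H206R2.Rot2.Main

/-!
# Wells of the effective potential and existence of the minimum of the action defect
-/

open Real Set MeasureTheory Filter Topology
open scoped ContDiff

namespace Pool.Agent.L7h84.CL.Mn

open Pool.Agent.H206R2 Pool.Agent.H206R2.Rot2

/-- Two profiles. -/
structure PP2 (L : ℝ) (f h : ℝ → ℝ) : Prop where
  pf : Rot.IsProfile L f
  ph : Rot.IsProfile L h


section
variable {L : ℝ} {f h : ℝ → ℝ} (hf : PP2 L f h)
include hf

theorem f_zero : f 0 = 0 := by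
  have := hf.pf.odd_zero 0
  simp at this
  linarith

theorem h_L : h L = 0 := by
  have := hf.ph.odd_L 0
  simp at this
  linarith

theorem cont_V {c₁ c₂ : ℝ} : ContinuousOn (Veff f h c₁ c₂) (Ioo 0 L) := by
  unfold Veff
  intro r hr
  have h1 : f r ≠ 0 := (hf.pf.fpos r hr.1 hr.2).ne'
  have h2 : h r ≠ 0 := (hf.ph.fpos r hr.1 hr.2).ne'
  have e1 : ContinuousAt f r := hf.pf.smooth.continuous.continuousAt
  have e2 : ContinuousAt h r := hf.ph.smooth.continuous.continuousAt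
  exact (((continuousAt_const.div e1 h1).pow 2).add
    ((continuousAt_const.div e2 h2).pow 2)).continuousWithinAt

theorem well_spec {c₁ c₂ : ℝ} (h1 : 0 < c₁)
    (h2 : 0 < c₂) {s : ℝ} (hs0 : 0 < s) (hsL : s < L) (hs : Veff f h c₁ c₂ s < 1) :
    ∃ p q, 0 < p ∧ p < s ∧ s < q ∧ q < L ∧ Veff f h c₁ c₂ p = 1 ∧ Veff f h c₁ c₂ q = 1 ∧
      well L (Veff f h c₁ c₂) s = Ioo p q ∧ ∀ x ∈ Ioo p q, Veff f h c₁ c₂ x < 1 := by
  have hVc := cont_V hf (c₁ := c₁) (c₂ := c₂)
  -- a point near `0` with `V ≥ 1`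
  obtain ⟨u, hu0, hus, hu1⟩ : ∃ u, 0 < u ∧ u < s ∧ 1 ≤ Veff f h c₁ c₂ u := by
    have e1 : Tendsto f (𝓝[>] 0) (𝓝 (f 0)) := hf.pf.smooth.continuous.continuousAt.mono_left
      nhdsWithin_le_nhds
    rw [f_zero hf] at e1
    have e2 : ∀ᶠ x in 𝓝[>] (0 : ℝ), f x < c₁ := e1.eventually_lt_const h1
    have e3 : ∀ᶠ x in 𝓝[>] (0 : ℝ), x ∈ Ioo 0 s := Ioo_mem_nhdsGT hs0
    obtain ⟨u, hu, hu'⟩ := (e2.and e3).exists
    refine ⟨u, hu'.1, hu'.2, ?_⟩
    have hfu : 0 < f u := hf.pf.fpos u hu'.1 (by linarith [hu'.2])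
    have : 1 ≤ c₁ / f u := by rw [le_div_iff₀ hfu]; linarith
    unfold Veff
    nlinarith [sq_nonneg (c₂ / h u)]
  obtain ⟨v, hsv, hvL, hv1⟩ : ∃ v, s < v ∧ v < L ∧ 1 ≤ Veff f h c₁ c₂ v := by
    have e1 : Tendsto h (𝓝[<] L) (𝓝 (h L)) := hf.ph.smooth.continuous.continuousAt.mono_left
      nhdsWithin_le_nhds
    rw [h_L hf] at e1
    have e2 : ∀ᶠ x in 𝓝[<] L, h x < c₂ := e1.eventually_lt_const h2
    have e3 : ∀ᶠ x in 𝓝[<] L, x ∈ Ioo s L := Ioo_mem_nhdsLT hsL
    obtain ⟨v, hv, hv'⟩ := (e2.and e3).exists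
    refine ⟨v, hv'.1, hv'.2, ?_⟩
    have hhv : 0 < h v := hf.ph.fpos v (by linarith [hv'.1]) hv'.2
    have : 1 ≤ c₂ / h v := by rw [le_div_iff₀ hhv]; linarith
    unfold Veff
    nlinarith [sq_nonneg (c₁ / f v)]
  obtain ⟨p, hup, hps, hp1, hplt⟩ := TE.exists_last hus.le
    (hVc.mono (fun x hx => ⟨lt_of_lt_of_le hu0 hx.1, lt_of_le_of_lt hx.2 hsL⟩)) hu1 hs
  obtain ⟨q, hsq, hqv, hq1, hqlt⟩ := TE.exists_first hsv.le
    (hVc.mono (fun x hx => ⟨lt_of_lt_of_le hs0 hx.1, lt_of_le_of_lt hx.2 hvL⟩)) hs hv1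
  have hp0 : 0 < p := lt_of_lt_of_le hu0 hup
  have hqL : q < L := lt_of_le_of_lt hqv hvL
  have hin : ∀ x ∈ Ioo p q, Veff f h c₁ c₂ x < 1 := by
    intro x hx
    rcases le_total x s with hxs | hxs
    · exact hplt x hx.1 hxs
    · exact hqlt x hxs hx.2
  refine ⟨p, q, hp0, hps, hsq, hqL, hp1, hq1, ?_, hin⟩
  ext r
  constructor
  · intro hr
    have hr' : ∀ x ∈ uIcc s r, 0 < x ∧ x < L ∧ Veff f h c₁ c₂ x < 1 := hr
    constructor
    · by_contra hcon
      push Not at hcon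
      have : p ∈ uIcc s r := by
        rw [uIcc_of_ge (by linarith)]; exact ⟨hcon, hps.le⟩
      have := (hr' p this).2.2
      linarith
    · by_contra hcon
      push Not at hcon
      have : q ∈ uIcc s r := by
        rw [uIcc_of_le (by linarith)]; exact ⟨hsq.le, hcon⟩
      have := (hr' q this).2.2
      linarith
  · intro hr x hx
    have hx' : x ∈ Ioo p q :=
      (ordConnected_Ioo.uIcc_subset ⟨hps, hsq⟩ hr) hx
    exact ⟨hp0.trans hx'.1, hx'.2.trans hqL, hin x hx'⟩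

theorem meas (c₁ c₂ : ℝ) : Measurable (fun r => √(1 - Veff f h c₁ c₂ r)) := by
  unfold Veff
  have m1 : Measurable f := hf.pf.smooth.continuous.measurable
  have m2 : Measurable h := hf.ph.smooth.continuous.measurable
  exact (measurable_const.sub (((measurable_const.div m1).pow_const 2).add
    ((measurable_const.div m2).pow_const 2))).sqrt

end

theorem bd {f h : ℝ → ℝ} (c₁ c₂ r : ℝ) : √(1 - Veff f h c₁ c₂ r) ≤ 1 := by
  rw [Real.sqrt_le_left zero_le_one]
  unfold Veff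
  nlinarith [sq_nonneg (c₁ / f r), sq_nonneg (c₂ / h r)]

theorem intOn {L : ℝ} {f h : ℝ → ℝ} (hf : PP2 L f h) (c₁ c₂ : ℝ) {A : Set ℝ}
    (hA : volume A < ⊤) : IntegrableOn (fun r => √(1 - Veff f h c₁ c₂ r)) A := by
  refine Measure.integrableOn_of_bounded (M := 1) hA.ne (meas hf c₁ c₂).aestronglyMeasurable ?_
  refine Eventually.of_forall fun r => ?_
  rw [Real.norm_of_nonneg (Real.sqrt_nonneg _)]
  exact bd c₁ c₂ r

theorem well_sub (L : ℝ) (V : ℝ → ℝ) (s : ℝ) : well L V s ⊆ Ioo 0 L := by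
  intro r hr
  have := hr r right_mem_uIcc
  exact ⟨this.1, this.2.1⟩

theorem actW_nonneg (L : ℝ) (V : ℝ → ℝ) (s : ℝ) : 0 ≤ actW L V s := by
  unfold actW
  have : 0 ≤ ∫ r in well L V s, √(1 - V r) := integral_nonneg fun r => Real.sqrt_nonneg _
  linarith

/-- Contribution of a compact interval to the action. -/
theorem actW_ge {L : ℝ} {f h : ℝ → ℝ} (hf : PP2 L f h) {c₁ c₂ x y s : ℝ}
    (hx : 0 < x) (hy : y < L) (hs : s ∈ Icc x y) (hV : ∀ r ∈ Icc x y, Veff f h c₁ c₂ r < 1) :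
    2 * ∫ r in Icc x y, √(1 - Veff f h c₁ c₂ r) ≤ actW L (Veff f h c₁ c₂) s := by
  unfold actW
  have hsub : Icc x y ⊆ well L (Veff f h c₁ c₂) s := by
    intro r hr z hz
    have hz' : z ∈ Icc x y := (ordConnected_Icc.uIcc_subset hs hr) hz
    exact ⟨lt_of_lt_of_le hx hz'.1, lt_of_le_of_lt hz'.2 hy, hV z hz'⟩
  have hfin : volume (well L (Veff f h c₁ c₂) s) < ⊤ :=
    lt_of_le_of_lt (measure_mono (well_sub L _ s)) measure_Ioo_lt_top
  have := setIntegral_mono_set (intOn hf c₁ c₂ hfin)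
    (Eventually.of_forall fun r => Real.sqrt_nonneg _) hsub.eventuallyLE
  linarith

/-- The effective potential stays below `1` on compact intervals for nearby constants. -/
theorem ev_lt {L : ℝ} {f h : ℝ → ℝ} (hf : PP2 L f h) {c₀ : ℝ × ℝ} {x y : ℝ}
    (hx : 0 < x) (hy : y < L) (hV : ∀ r ∈ Icc x y, Veff f h c₀.1 c₀.2 r < 1) :
    ∀ᶠ c : ℝ × ℝ in 𝓝 c₀, ∀ r ∈ Icc x y, Veff f h c.1 c.2 r < 1 := by
  refine isCompact_Icc.eventually_forall_of_forall_eventually
    (P := fun (c : ℝ × ℝ) (r : ℝ) => Veff f h c.1 c.2 r < 1) ?_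
  intro r hr
  have h1 : f r ≠ 0 := (hf.pf.fpos r (lt_of_lt_of_le hx hr.1) (lt_of_le_of_lt hr.2 hy)).ne'
  have h2 : h r ≠ 0 :=
    (hf.ph.fpos r (lt_of_lt_of_le hx hr.1) (lt_of_le_of_lt hr.2 hy)).ne'
  have e1 : ContinuousAt (fun z : (ℝ × ℝ) × ℝ => f z.2) (c₀, r) :=
    (hf.pf.smooth.continuous.comp continuous_snd).continuousAt
  have e2 : ContinuousAt (fun z : (ℝ × ℝ) × ℝ => h z.2) (c₀, r) :=
    (hf.ph.smooth.continuous.comp continuous_snd).continuousAt
  have e3 : ContinuousAt (fun z : (ℝ × ℝ) × ℝ => z.1.1) (c₀, r) :=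
    (continuous_fst.comp continuous_fst).continuousAt
  have e4 : ContinuousAt (fun z : (ℝ × ℝ) × ℝ => z.1.2) (c₀, r) :=
    (continuous_snd.comp continuous_fst).continuousAt
  have e5 : ContinuousAt (fun z : (ℝ × ℝ) × ℝ => Veff f h z.1.1 z.1.2 z.2) (c₀, r) := by
    unfold Veff
    exact ((e3.div e1 h1).pow 2).add ((e4.div e2 h2).pow 2)
  exact e5.eventually (eventually_lt_nhds (hV r hr))

theorem tendsto_int {L : ℝ} {f h : ℝ → ℝ} (hf : PP2 L f h) {c₀ : ℝ × ℝ}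
    {c : ℕ → ℝ × ℝ} (hc : Tendsto c atTop (𝓝 c₀)) (x y : ℝ) :
    Tendsto (fun n => ∫ r in Icc x y, √(1 - Veff f h (c n).1 (c n).2 r)) atTop
      (𝓝 (∫ r in Icc x y, √(1 - Veff f h c₀.1 c₀.2 r))) := by
  refine tendsto_integral_of_dominated_convergence (fun _ => (1 : ℝ)) ?_ ?_ ?_ ?_
  · intro n; exact (meas hf _ _).aestronglyMeasurable
  · exact (integrableOn_const measure_Icc_lt_top.ne : IntegrableOn (fun _ => (1 : ℝ)) (Icc x y))
  · intro n
    refine Eventually.of_forall fun r => ?_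
    rw [Real.norm_of_nonneg (Real.sqrt_nonneg _)]
    exact bd _ _ r
  · refine Eventually.of_forall fun r => ?_
    unfold Veff
    have e1 : Tendsto (fun n => (c n).1) atTop (𝓝 c₀.1) := (continuous_fst.tendsto c₀).comp hc
    have e2 : Tendsto (fun n => (c n).2) atTop (𝓝 c₀.2) := (continuous_snd.tendsto c₀).comp hc
    exact (tendsto_const_nhds.sub (((e1.div_const _).pow 2).add ((e2.div_const _).pow 2))).sqrt

/-- Truncating the interval of integration changes the integral by at most the length. -/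
theorem trunc {L : ℝ} {f h : ℝ → ℝ} (hf : PP2 L f h) (c₁ c₂ : ℝ) {p x y q : ℝ}
    (hpx : p ≤ x) (hxy : x ≤ y) (hyq : y ≤ q) :
    ∫ r in Ioo p q, √(1 - Veff f h c₁ c₂ r) ≤
      (∫ r in Icc x y, √(1 - Veff f h c₁ c₂ r)) + (x - p) + (q - y) := by
  rw [← integral_Ioc_eq_integral_Ioo, integral_Icc_eq_integral_Ioc,
    ← intervalIntegral.integral_of_le (hpx.trans (hxy.trans hyq)),
    ← intervalIntegral.integral_of_le hxy]
  have hi : ∀ u v : ℝ, IntervalIntegrable (fun r => √(1 - Veff f h c₁ c₂ r)) volume u v := by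
    intro u v
    rw [intervalIntegrable_iff]
    exact intOn hf c₁ c₂ (by rw [uIoc]; exact measure_Ioc_lt_top)
  have hb : ∀ u v : ℝ, u ≤ v → ∫ r in u..v, √(1 - Veff f h c₁ c₂ r) ≤ v - u := by
    intro u v huv
    have := intervalIntegral.integral_mono_on huv (hi u v)
      (intervalIntegrable_const (c := (1 : ℝ))) (fun r _ => bd c₁ c₂ r)
    simpa using this
  rw [← intervalIntegral.integral_add_adjacent_intervals (hi p y) (hi y q),
    ← intervalIntegral.integral_add_adjacent_intervals (hi p x) (hi x y)]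
  have := hb p x hpx
  have := hb y q hyq
  linarith

/-- The norm on the pairs of constants. -/
noncomputable def nn (c : ℝ × ℝ) : ℝ := √(c.1 ^ 2 + c.2 ^ 2)

lemma nn_cont : Continuous nn := by unfold nn; fun_prop

lemma nn_nonneg (c : ℝ × ℝ) : 0 ≤ nn c := Real.sqrt_nonneg _

lemma nn_sq (c : ℝ × ℝ) : nn c ^ 2 = c.1 ^ 2 + c.2 ^ 2 := Real.sq_sqrt (by positivity)

/-- The open quarter disc. -/
def QD (R : ℝ) : Set (ℝ × ℝ) := {c | 0 < c.1 ∧ 0 < c.2 ∧ nn c < R}

/-- The action defect. -/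
noncomputable def Df (L R : ℝ) (f h : ℝ → ℝ) (s : ℝ) (c : ℝ × ℝ) : ℝ :=
  actW L (Veff f h c.1 c.2) s - 2 * π * (R - nn c)

/-- Lower semicontinuity of the action defect. -/
theorem lsc {L : ℝ} {f h : ℝ → ℝ} (hf : PP2 L f h) {R : ℝ} {s : ℝ}
    {c₀ : ℝ × ℝ} {c : ℕ → ℝ × ℝ} (hc : Tendsto c atTop (𝓝 c₀)) {m : ℝ}
    (hD : Tendsto (fun n => Df L R f h s (c n)) atTop (𝓝 m))
    {p q : ℝ} (hp : 0 ≤ p) (hq : q ≤ L)
    (hV : ∀ r ∈ Ioo p q, Veff f h c₀.1 c₀.2 r < 1) (hs : s ∈ Ioo p q) :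
    2 * (∫ r in Ioo p q, √(1 - Veff f h c₀.1 c₀.2 r)) - 2 * π * (R - nn c₀) ≤ m := by
  refine le_of_forall_pos_le_add fun ε hε => ?_
  obtain ⟨hs1, hs2⟩ := hs
  set x := min (p + ε / 4) s with hxdef
  set y := max (q - ε / 4) s with hydef
  have hpx : p < x := lt_min (by linarith) hs1
  have hyq : y < q := max_lt (by linarith) hs2
  have hxx : x ≤ s := min_le_right _ _
  have hyy : s ≤ y := le_max_right _ _
  have hx4 : x ≤ p + ε / 4 := min_le_left _ _
  have hy4 : q - ε / 4 ≤ y := le_max_left _ _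
  have hxy2 : x ≤ y := hxx.trans hyy
  have hV' : ∀ r ∈ Icc x y, Veff f h c₀.1 c₀.2 r < 1 := fun r hr =>
    hV r ⟨lt_of_lt_of_le hpx hr.1, lt_of_le_of_lt hr.2 hyq⟩
  have hx0 : 0 < x := lt_of_le_of_lt hp hpx
  have hyL : y < L := lt_of_lt_of_le hyq hq
  have ev1 := hc.eventually (ev_lt hf hx0 hyL hV')
  have ev2 : ∀ᶠ n in atTop, 2 * (∫ r in Icc x y, √(1 - Veff f h (c n).1 (c n).2 r)) -
      2 * π * (R - nn (c n)) ≤ Df L R f h s (c n) := by
    filter_upwards [ev1] with n hn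
    have := actW_ge hf hx0 hyL ⟨hxx, hyy⟩ hn
    unfold Df
    linarith
  have e1 : Tendsto (fun n => nn (c n)) atTop (𝓝 (nn c₀)) := (nn_cont.tendsto c₀).comp hc
  have lim : Tendsto (fun n => 2 * (∫ r in Icc x y, √(1 - Veff f h (c n).1 (c n).2 r)) -
      2 * π * (R - nn (c n))) atTop (𝓝 (2 * (∫ r in Icc x y, √(1 - Veff f h c₀.1 c₀.2 r)) -
      2 * π * (R - nn c₀))) :=
    ((tendsto_int hf hc x y).const_mul 2).sub ((tendsto_const_nhds.sub e1).const_mul (2 * π))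
  have key := le_of_tendsto_of_tendsto lim hD ev2
  have ht := trunc hf c₀.1 c₀.2 hpx.le hxy2 hyq.le
  linarith

lemma Veff_s_lt {R s : ℝ} {f h : ℝ → ℝ} (hfs : R < f s) (hhs : R < h s) (hR : 0 < R)
    {c : ℝ × ℝ} (hc : c ∈ QD R) : Veff f h c.1 c.2 s < 1 := by
  obtain ⟨h1, h2, h3⟩ := hc
  have h4 := nn_sq c
  have h5 := nn_nonneg c
  have hfs0 : 0 < f s := hR.trans hfs
  have hhs0 : 0 < h s := hR.trans hhs
  have h6 : (c.1 / f s) ^ 2 ≤ (c.1 / R) ^ 2 := by gcongr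
  have h7 : (c.2 / h s) ^ 2 ≤ (c.2 / R) ^ 2 := by gcongr
  have h8 : (c.1 / R) ^ 2 + (c.2 / R) ^ 2 < 1 := by
    rw [div_pow, div_pow, ← add_div, ← h4, div_lt_one (by positivity)]
    exact pow_lt_pow_left₀ h3 h5 two_ne_zero
  unfold Veff
  linarith

/-- What is needed of a profile: it is `> R` at `s`, and the set where it is `> t` is an interval. -/
structure Wl (L R s : ℝ) (f : ℝ → ℝ) : Prop where
  s0 : 0 < s
  sL : s < L
  fs : R < f s
  itv : ∀ t, 0 < t → t < R → ∃ x y, 0 < x ∧ x < s ∧ s < y ∧ y < L ∧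
    (∀ r ∈ Ioo x y, t < f r) ∧ (∀ r ∈ Ioc 0 x, f r ≤ t) ∧ ∀ r ∈ Ico y L, f r ≤ t

/-- Existence of the minimum of `D(c) = A(c) - 2 π (R - |c|)` if it is negative somewhere. -/
theorem exists_min {L : ℝ} {f h : ℝ → ℝ} (hf : PP2 L f h) {R s : ℝ} (hR : 0 < R)
    (wf : Wl L R s f) (wh : Wl L R s h)
    (hEf : ∀ c, 0 ≤ c → c ≤ R → 2 * π * (R - c) ≤ 2 * ∫ r in Ioo 0 L, √(1 - (c / f r) ^ 2))
    (hEh : ∀ c, 0 ≤ c → c ≤ R → 2 * π * (R - c) ≤ 2 * ∫ r in Ioo 0 L, √(1 - (c / h r) ^ 2))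
    (hneg : ∃ c ∈ QD R, actW L (Veff f h c.1 c.2) s < 2 * π * (R - nn c)) :
    ∃ c ∈ QD R, actW L (Veff f h c.1 c.2) s < 2 * π * (R - nn c) ∧
      ∀ c' ∈ QD R, actW L (Veff f h c.1 c.2) s - 2 * π * (R - nn c) ≤
        actW L (Veff f h c'.1 c'.2) s - 2 * π * (R - nn c') := by
  have hπ := Real.pi_pos
  set E : Set ℝ := Df L R f h s '' QD R with hE
  have hbdd : BddBelow E := by
    refine ⟨-(2 * π * R), ?_⟩
    rintro _ ⟨c, hc, rfl⟩
    have h0 := actW_nonneg L (Veff f h c.1 c.2) s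
    have h1 := nn_nonneg c
    unfold Df
    nlinarith
  obtain ⟨c₁, hc₁, hc₁'⟩ := hneg
  have hne : E.Nonempty := ⟨_, c₁, hc₁, rfl⟩
  set m := sInf E with hm
  have hmneg : m < 0 := by
    have : m ≤ Df L R f h s c₁ := csInf_le hbdd ⟨c₁, hc₁, rfl⟩
    unfold Df at this
    linarith
  obtain ⟨u, -, hu, huE⟩ := exists_seq_tendsto_sInf hne hbdd
  choose d hdT hdu using huE
  have hdK : ∀ n, d n ∈ Icc ((0 : ℝ), (0 : ℝ)) (R, R) := by
    intro n
    obtain ⟨h1, h2, h3⟩ := hdT n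
    have h4 := nn_sq (d n)
    have h5 := nn_nonneg (d n)
    refine ⟨⟨h1.le, h2.le⟩, ⟨?_, ?_⟩⟩
    · show (d n).1 ≤ R
      nlinarith [sq_nonneg (d n).2]
    · show (d n).2 ≤ R
      nlinarith [sq_nonneg (d n).1]
  obtain ⟨c₀, hc₀, φ, hφ, hlim⟩ := isCompact_Icc.tendsto_subseq hdK
  set c : ℕ → ℝ × ℝ := d ∘ φ with hcdef
  have hcT : ∀ n, c n ∈ QD R := fun n => hdT (φ n)
  have hD : Tendsto (fun n => Df L R f h s (c n)) atTop (𝓝 m) := by
    have : (fun n => Df L R f h s (c n)) = u ∘ φ := by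
      funext n; exact hdu (φ n)
    rw [this]
    exact hu.comp hφ.tendsto_atTop
  have e3 : Tendsto (fun n => nn (c n)) atTop (𝓝 (nn c₀)) := (nn_cont.tendsto c₀).comp hlim
  have h01 : 0 ≤ c₀.1 := hc₀.1.1
  have h02 : 0 ≤ c₀.2 := hc₀.1.2
  have hsum : nn c₀ ≤ R :=
    le_of_tendsto e3 (Eventually.of_forall fun n => (hcT n).2.2.le)
  have hsum' : nn c₀ < R := by
    rcases lt_or_eq_of_le hsum with hh | hh
    · exact hh
    exfalso
    have lim0 : Tendsto (fun n => -(2 * π * (R - nn (c n)))) atTop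
        (𝓝 (-(2 * π * (R - nn c₀)))) :=
      ((tendsto_const_nhds.sub e3).const_mul (2 * π)).neg
    have := le_of_tendsto_of_tendsto lim0 hD (Eventually.of_forall fun n => by
      have := actW_nonneg L (Veff f h (c n).1 (c n).2) s
      unfold Df
      linarith)
    rw [hh] at this
    simp at this
    linarith
  rcases eq_or_lt_of_le h01 with h01' | h01'
  · exfalso
    have h10 : c₀.1 = 0 := h01'.symm
    have hnn : nn c₀ = c₀.2 := by
      unfold nn
      rw [h10]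
      simp [Real.sqrt_sq h02]
    rcases eq_or_lt_of_le h02 with h02' | h02'
    · -- the origin
      have h20 : c₀.2 = 0 := h02'.symm
      have key := lsc (R := R) hf hlim hD (p := 0) (q := L) le_rfl
        le_rfl (fun r _ => by rw [h10, h20]; unfold Veff; simp) ⟨wf.s0, wf.sL⟩
      have hE0 := hEf 0 le_rfl hR.le
      rw [hnn, h10, h20] at key
      unfold Veff at key
      simp only [zero_div, ne_eq, OfNat.ofNat_ne_zero, not_false_eq_true, zero_pow, add_zero,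
        sub_zero] at key hE0
      linarith
    · -- the edge `c₁ = 0`
      rw [hnn] at hsum'
      obtain ⟨x, y, hx0, hxs, hsy, hyL, i1, i2, i3⟩ := wh.itv c₀.2 h02' hsum'
      have hVt : ∀ r ∈ Ioo x y, Veff f h c₀.1 c₀.2 r < 1 := by
        intro r hr
        have h1 := i1 r hr
        have h2 : c₀.2 / h r < 1 := by rw [div_lt_one (by linarith)]; exact h1
        have h3 : 0 < c₀.2 / h r := div_pos h02' (by linarith)
        unfold Veff
        rw [h10, zero_div]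
        nlinarith
      have key := lsc (R := R) hf hlim hD (p := x) (q := y) hx0.le hyL.le hVt ⟨hxs, hsy⟩
      have hE0 := hEh c₀.2 h02 hsum'.le
      have hsplit : ∫ r in Ioo 0 L, √(1 - (c₀.2 / h r) ^ 2) =
          ∫ r in Ioo x y, √(1 - Veff f h c₀.1 c₀.2 r) := by
        have e : (fun r => √(1 - (c₀.2 / h r) ^ 2)) = fun r => √(1 - Veff f h c₀.1 c₀.2 r) := by
          funext r; unfold Veff; rw [h10]; simp
        rw [e]
        refine setIntegral_eq_of_subset_of_forall_sdiff_eq_zero measurableSet_Ioo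
          (Ioo_subset_Ioo hx0.le hyL.le) ?_
        intro r hr
        have hr3 : 0 < h r := hf.ph.fpos r hr.1.1 hr.1.2
        have hr2 : h r ≤ c₀.2 := by
          rcases le_or_gt r x with hrx | hrx
          · exact i2 r ⟨hr.1.1, hrx⟩
          · refine i3 r ⟨?_, hr.1.2⟩
            by_contra hcon
            exact hr.2 ⟨hrx, not_le.mp hcon⟩
        have hr4 : 1 ≤ c₀.2 / h r := by rw [le_div_iff₀ hr3]; linarith
        refine Real.sqrt_eq_zero_of_nonpos ?_
        unfold Veff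
        nlinarith [sq_nonneg (c₀.1 / f r)]
      rw [hsplit] at hE0
      rw [hnn] at key
      linarith
  · rcases eq_or_lt_of_le h02 with h02' | h02'
    · -- the edge `c₂ = 0`
      exfalso
      have h20 : c₀.2 = 0 := h02'.symm
      have hnn : nn c₀ = c₀.1 := by
        unfold nn
        rw [h20]
        simp [Real.sqrt_sq h01]
      rw [hnn] at hsum'
      obtain ⟨x, y, hx0, hxs, hsy, hyL, i1, i2, i3⟩ := wf.itv c₀.1 h01' hsum'
      have hVt : ∀ r ∈ Ioo x y, Veff f h c₀.1 c₀.2 r < 1 := by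
        intro r hr
        have h1 := i1 r hr
        have h2 : c₀.1 / f r < 1 := by rw [div_lt_one (by linarith)]; exact h1
        have h3 : 0 < c₀.1 / f r := div_pos h01' (by linarith)
        unfold Veff
        rw [h20, zero_div]
        nlinarith
      have key := lsc (R := R) hf hlim hD (p := x) (q := y) hx0.le hyL.le hVt ⟨hxs, hsy⟩
      have hE0 := hEf c₀.1 h01 hsum'.le
      have hsplit : ∫ r in Ioo 0 L, √(1 - (c₀.1 / f r) ^ 2) =
          ∫ r in Ioo x y, √(1 - Veff f h c₀.1 c₀.2 r) := by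
        have e : (fun r => √(1 - (c₀.1 / f r) ^ 2)) = fun r => √(1 - Veff f h c₀.1 c₀.2 r) := by
          funext r; unfold Veff; rw [h20]; simp
        rw [e]
        refine setIntegral_eq_of_subset_of_forall_sdiff_eq_zero measurableSet_Ioo
          (Ioo_subset_Ioo hx0.le hyL.le) ?_
        intro r hr
        have hr3 : 0 < f r := hf.pf.fpos r hr.1.1 hr.1.2
        have hr2 : f r ≤ c₀.1 := by
          rcases le_or_gt r x with hrx | hrx
          · exact i2 r ⟨hr.1.1, hrx⟩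
          · refine i3 r ⟨?_, hr.1.2⟩
            by_contra hcon
            exact hr.2 ⟨hrx, not_le.mp hcon⟩
        have hr4 : 1 ≤ c₀.1 / f r := by rw [le_div_iff₀ hr3]; linarith
        refine Real.sqrt_eq_zero_of_nonpos ?_
        unfold Veff
        nlinarith [sq_nonneg (c₀.2 / h r)]
      rw [hsplit] at hE0
      rw [hnn] at key
      linarith
    · -- an interior point: the minimum
      have hc₀T : c₀ ∈ QD R := ⟨h01', h02', hsum'⟩
      have hVs : Veff f h c₀.1 c₀.2 s < 1 := Veff_s_lt wf.fs wh.fs hR hc₀T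
      obtain ⟨p, q, hp, hps, hsq, hq, -, -, hw, hin⟩ := well_spec hf h01' h02' wf.s0 wf.sL hVs
      have key := lsc (R := R) hf hlim hD (p := p) (q := q) hp.le hq.le hin ⟨hps, hsq⟩
      have hle : Df L R f h s c₀ ≤ m := by
        unfold Df actW
        rw [hw]
        exact key
      refine ⟨c₀, hc₀T, ?_, ?_⟩
      · have := lt_of_le_of_lt hle hmneg
        unfold Df at this
        linarith
      · intro c' hc'
        exact hle.trans (csInf_le hbdd ⟨c', hc', rfl⟩)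

end Pool.Agent.L7h84.CL.Mn
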