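import Pool.Agent.L7h84.CL.Main

/-! # The round metric -/

open Real Set MeasureTheory Filter Topology
open scoped ContDiff

namespace Pool.Agent.L7h84.CL

open Pool.Agent.H206R2

variable {N p : ℕ} {J : Fin p → EE N →L[ℝ] EE N}

lemma mom_self (b : ℝ → ℝ) (r : ℝ) (u w : EE N) : mom J b b r u w = b r ^ 2 • w := by
  unfold mom
  simp

lemma frc_self (b : ℝ → ℝ) (r : ℝ) (u w : EE N) : frc J b b r u w = 0 := by
  unfold frc
  simp

theorem round_of {v : ℝ} (hv : 0 < v) {γ : ℝ → EuclideanSpace ℝ (Fin N) × ℝ}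
    (h : IsGeodesicC J π Real.sin Real.sin v γ) : Rot.IsGeodesic π Real.sin v γ := by
  obtain ⟨r, u, hr, hu, hn, hγ, h1, h2, h3⟩ := h
  have hu' : ContDiff ℝ 1 (deriv u) := by
    have h2' : ContDiff ℝ (1 + 1) u := by
      have : (1 + 1 : WithTop ℕ∞) = 2 := by norm_num
      rw [this]; exact hu
    exact (contDiff_succ_iff_deriv.1 h2').2.2
  have hu'' : Continuous (deriv (deriv u)) := hu'.continuous_deriv (by norm_num)
  have hrd : Differentiable ℝ r := hr.differentiable (by norm_num)
  have hudd : Differentiable ℝ (deriv u) := hu'.differentiable (by norm_num)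
  have hr' : Continuous (deriv r) := hr.continuous_deriv (by norm_num)
  set X : ℝ → EE N := fun t => Real.sin (r t) • deriv (deriv u) t +
    (2 * deriv Real.sin (r t) * deriv r t) • deriv u t +
      (Real.sin (r t) * ‖deriv u t‖ ^ 2) • u t with hX
  have hXc : Continuous X := by
    have c1 := hr.continuous
    have c2 := hu.continuous
    have c3 := hu'.continuous
    simp only [hX, Real.deriv_sin]
    fun_prop
  have hX0 : ∀ t, Real.sin (r t) ≠ 0 → X t = 0 := by
    intro t ht
    have d1 : HasDerivAt (fun t => Real.sin (r t) ^ 2)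
        (2 * Real.sin (r t) * (Real.cos (r t) * deriv r t)) t := by
      have := (((hrd t).hasDerivAt).sin).fun_pow 2
      simpa using this
    have d2 := d1.smul (hudd t).hasDerivAt
    have d3 := h2 t
    simp only [mom_self, frc_self] at d3
    have d4 := d2.unique d3
    have d5 : Real.sin (r t) • X t = 0 := by
      have e1 : Real.sin (r t) • X t = (Real.sin (r t) ^ 2 • deriv (deriv u) t +
          (2 * Real.sin (r t) * (Real.cos (r t) * deriv r t)) • deriv u t) +
            (Real.sin (r t) ^ 2 * ‖deriv u t‖ ^ 2) • u t := by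
        simp only [hX, Real.deriv_sin]
        module
      rw [e1, d4]
      module
    exact (smul_eq_zero.1 d5).resolve_left ht
  have hXz : ∀ t, X t = 0 := by
    intro t
    by_cases ht : Real.sin (r t) = 0
    · have hrt : deriv r t ≠ 0 := by
        intro h0
        have := h3 t
        rw [ht, h0] at this
        have hv2 : 0 < v ^ 2 := by positivity
        simp at this
        linarith
      have hct : Real.cos (r t) ≠ 0 := by
        intro h0
        have := Real.sin_sq_add_cos_sq (r t)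
        rw [ht, h0] at this
        norm_num at this
      have d1 : HasDerivAt (fun t => Real.sin (r t)) (Real.cos (r t) * deriv r t) t :=
        ((hrd t).hasDerivAt).sin
      have ev : ∀ᶠ z in 𝓝[≠] t, Real.sin (r z) ≠ 0 :=
        d1.eventually_ne (mul_ne_zero hct hrt) (c := 0)
      have lim : Tendsto X (𝓝[≠] t) (𝓝 (X t)) := (hXc.tendsto t).mono_left nhdsWithin_le_nhds
      refine tendsto_nhds_unique lim ?_
      refine tendsto_const_nhds.congr' ?_
      filter_upwards [ev] with z hz
      exact (hX0 z hz).symm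
    · exact hX0 t ht
  refine ⟨r, u, hr, hu, hn, hγ, ?_, hXz, ?_⟩
  · intro t
    rw [h1]
    ring
  · intro t
    rw [← h3 t]
    ring

theorem round_lengthC {v T : ℝ} (hv : 0 < v) (hT : 0 < T)
    {γ : ℝ → EuclideanSpace ℝ (Fin N) × ℝ} (h : IsGeodesicC J π Real.sin Real.sin v γ)
    (hper : ∀ t, γ (t + T) = γ t) : 2 * π ≤ v * T :=
  Rot.TG.round_length hv hT (round_of hv h) hper

/-- The main theorem together with the bound by the distance of the poles. -/
theorem main' {L : ℝ} {a b : ℝ → ℝ} (hJ : IsClifford J) (hp : 1 ≤ p) (hN : 2 * p < N)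
    (ha : Rot.IsProfile L a) (hb : Rot.IsProfile L b) :
    ∃ (γ : ℝ → EuclideanSpace ℝ (Fin N) × ℝ) (T : ℝ), 0 < T ∧ IsGeodesicC J L a b 1 γ ∧
      (∀ t, γ (t + T) = γ t) ∧ T ≤ 2 * L ∧
      T ^ N * (∫ t in (0 : ℝ)..π, Real.sin t ^ (N - 1)) ≤
        (2 * π) ^ N * ∫ r in (0 : ℝ)..L, a r ^ p * b r ^ (N - 1 - p) := by
  obtain ⟨γ, T, h1, h2, h3, h4⟩ := main hJ hp hN ha hb
  rcases le_or_gt T (2 * L) with h | h
  · exact ⟨γ, T, h1, h2, h3, h, h4⟩
  · obtain ⟨e, f, he, hf, hh1, hh2⟩ := exists_hor (J := J) ⟨0, hp⟩ hN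
    have G : Good J ⟨0, hp⟩ e f := ⟨hJ, he, hf, hh1, hh2⟩
    obtain ⟨γ', g1, g2⟩ := Rot.TG.meridian ha (le_refl 2)
    have hL := ha.pos
    refine ⟨_, 2 * L, by linarith, liftA G (ha.smooth.differentiable (by simp)) g1,
      fun t => by simp only [g2], le_rfl, le_trans ?_ h4⟩
    have hW : 0 ≤ ∫ t in (0 : ℝ)..π, Real.sin t ^ (N - 1) :=
      intervalIntegral.integral_nonneg Real.pi_pos.le
        (fun t ht => pow_nonneg (Real.sin_nonneg_of_nonneg_of_le_pi ht.1 ht.2) _)
    exact mul_le_mul_of_nonneg_right (pow_le_pow_left₀ (by linarith) h.le N) hW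

end Pool.Agent.L7h84.CL
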