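import Pool.Agent.L7h84.CL.Geo
import Pool.Agent.L7h84.CL.Min

/-! # Selection of a point, closed geodesics in the orbits -/

open Real Set MeasureTheory
open scoped ContDiff

namespace Pool.Agent.L7h84.CL

open Pool.Agent.H206R2

variable {N p : ℕ} {J : Fin p → EE N →L[ℝ] EE N} {i₀ : Fin p} {e f : EE N}

theorem wl_of_wall {L : ℝ} {g : ℝ → ℝ} (hg : Rot.IsProfile L g) {S α β R s : ℝ}
    (hw : Rot.Wall L g S α β) (hRS : R < S) (hs0 : 0 < s) (hsL : s < L) (hs : R < g s) :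
    Mn.Wl L R s g := by
  have hgc : Continuous g := hg.smooth.continuous
  have g0 : g 0 = 0 := by
    have := hg.odd_zero 0
    simp at this
    linarith
  have gL : g L = 0 := by
    have := hg.odd_L 0
    simp at this
    linarith
  have mono : StrictMonoOn g (Icc 0 α) := by
    refine strictMonoOn_of_deriv_pos (convex_Icc 0 α) hgc.continuousOn ?_
    intro r hr
    rw [interior_Icc] at hr
    exact hw.inc r hr.1.le hr.2.le
  have anti : StrictAntiOn g (Icc β L) := by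
    refine strictAntiOn_of_deriv_neg (convex_Icc β L) hgc.continuousOn ?_
    intro r hr
    rw [interior_Icc] at hr
    exact hw.dec r hr.1.le hr.2.le
  refine ⟨hs0, hsL, hs, fun t ht htR => ?_⟩
  obtain ⟨x, hx, hxt⟩ : t ∈ g '' Icc 0 α :=
    intermediate_value_Icc hw.apos.le hgc.continuousOn
      ⟨by rw [g0]; exact ht.le, by rw [hw.fa]; linarith⟩
  obtain ⟨y, hy, hyt⟩ : t ∈ g '' Icc β L :=
    intermediate_value_Icc' hw.bL.le hgc.continuousOn
      ⟨by rw [gL]; exact ht.le, by rw [hw.fb]; linarith⟩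
  have hx0 : 0 < x := by
    rcases hx.1.eq_or_lt with h | h
    · rw [← h, g0] at hxt; linarith
    · exact h
  have hyL : y < L := by
    rcases hy.2.eq_or_lt with h | h
    · rw [h, gL] at hyt; linarith
    · exact h
  have i2 : ∀ r ∈ Ioc 0 x, g r ≤ t := fun r hr => by
    rw [← hxt]
    exact mono.monotoneOn ⟨hr.1.le, hr.2.trans hx.2⟩ hx hr.2
  have i3 : ∀ r ∈ Ico y L, g r ≤ t := fun r hr => by
    rw [← hyt]
    exact anti.antitoneOn hy ⟨hy.1.trans hr.1, hr.2.le⟩ hr.1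
  refine ⟨x, y, hx0, ?_, ?_, hyL, ?_, i2, i3⟩
  · by_contra hcon
    have := i2 s ⟨hs0, not_lt.1 hcon⟩
    linarith
  · by_contra hcon
    have := i3 s ⟨not_lt.1 hcon, hsL⟩
    linarith
  · intro r hr
    rcases le_or_gt r α with h | h
    · rw [← hxt]
      exact mono hx ⟨hx0.le.trans hr.1.le, h⟩ hr.1
    · rcases le_or_gt β r with h' | h'
      · rw [← hyt]
        exact anti ⟨h', hr.2.le.trans hyL.le⟩ hy hr.2
      · have := hw.mid r h.le h'.le
        linarith

theorem exists_s {L : ℝ} {a b : ℝ → ℝ} (ha : Rot.IsProfile L a) (hb : Rot.IsProfile L b)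
    {S₁ α₁ β₁ S₂ α₂ β₂ R : ℝ} (w₁ : Rot.Wall L a S₁ α₁ β₁) (w₂ : Rot.Wall L b S₂ α₂ β₂)
    (h1 : R < S₁) (h2 : R < S₂)
    (hcr : ∀ r, 0 < r → r < L → a r = b r → deriv a r * deriv b r < 0 → R < a r) :
    ∃ s, 0 < s ∧ s < L ∧ R < a s ∧ R < b s := by
  have hac : Continuous a := ha.smooth.continuous
  have hbc : Continuous b := hb.smooth.continuous
  rcases lt_or_ge β₁ α₂ with h | h
  · by_cases c1 : R < b β₁
    · exact ⟨β₁, w₁.apos.trans_le w₁.ab, w₁.bL, by rw [w₁.fb]; exact h1, c1⟩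
    by_cases c2 : R < a α₂
    · exact ⟨α₂, w₂.apos, w₂.ab.trans_lt w₂.bL, c2, by rw [w₂.fa]; exact h2⟩
    obtain ⟨r, hr, hr0⟩ : (0 : ℝ) ∈ (fun r => a r - b r) '' Icc β₁ α₂ :=
      intermediate_value_Icc' h.le (hac.sub hbc).continuousOn
        ⟨by show a α₂ - b α₂ ≤ 0; rw [w₂.fa]; linarith,
         by show 0 ≤ a β₁ - b β₁; rw [w₁.fb]; linarith⟩
    have hr0' : a r = b r := sub_eq_zero.1 hr0
    have hr1 : 0 < r := (w₁.apos.trans_le w₁.ab).trans_le hr.1
    have hr2 : r < L := hr.2.trans_lt (w₂.ab.trans_lt w₂.bL)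
    have d1 := w₁.dec r hr.1 hr2.le
    have d2 := w₂.inc r hr1.le hr.2
    have := hcr r hr1 hr2 hr0' (mul_neg_of_neg_of_pos d1 d2)
    exact ⟨r, hr1, hr2, this, by rw [← hr0']; exact this⟩
  rcases lt_or_ge β₂ α₁ with h' | h'
  · by_cases c1 : R < a β₂
    · exact ⟨β₂, w₂.apos.trans_le w₂.ab, w₂.bL, c1, by rw [w₂.fb]; exact h2⟩
    by_cases c2 : R < b α₁
    · exact ⟨α₁, w₁.apos, w₁.ab.trans_lt w₁.bL, by rw [w₁.fa]; exact h1, c2⟩
    obtain ⟨r, hr, hr0⟩ : (0 : ℝ) ∈ (fun r => b r - a r) '' Icc β₂ α₁ :=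
      intermediate_value_Icc' h'.le (hbc.sub hac).continuousOn
        ⟨by show b α₁ - a α₁ ≤ 0; rw [w₁.fa]; linarith,
         by show 0 ≤ b β₂ - a β₂; rw [w₂.fb]; linarith⟩
    have hr0' : b r = a r := sub_eq_zero.1 hr0
    have hr1 : 0 < r := (w₂.apos.trans_le w₂.ab).trans_le hr.1
    have hr2 : r < L := hr.2.trans_lt (w₁.ab.trans_lt w₁.bL)
    have d1 := w₂.dec r hr.1 hr2.le
    have d2 := w₁.inc r hr1.le hr.2
    have := hcr r hr1 hr2 hr0'.symm (mul_neg_of_pos_of_neg d2 d1)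
    exact ⟨r, hr1, hr2, this, by rw [hr0']; exact this⟩
  · refine ⟨max α₁ α₂, lt_max_of_lt_left w₁.apos,
      (max_le w₁.ab h).trans_lt w₁.bL, ?_, ?_⟩
    · exact h1.trans_le (w₁.mid _ (le_max_left _ _) (max_le w₁.ab h))
    · exact h2.trans_le (w₂.mid _ (le_max_right _ _) (max_le h' w₂.ab))

/-- The closed geodesics in the round orbits. -/
theorem crossing (G : Good J i₀ e f) {L : ℝ} {a b : ℝ → ℝ} (ha : Rot.IsProfile L a) {r₀ : ℝ}
    (h0 : 0 < r₀) (hL : r₀ < L) (hab : a r₀ = b r₀) (hd : deriv a r₀ * deriv b r₀ < 0) :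
    ∃ γ : ℝ → EuclideanSpace ℝ (Fin N) × ℝ, IsGeodesicC J L a b 1 γ ∧
      ∀ t, γ (t + 2 * π * a r₀) = γ t := by
  have hm : 0 < a r₀ := ha.fpos r₀ h0 hL
  set A := deriv a r₀ with hA
  set B := deriv b r₀ with hB
  have hAB : B - A ≠ 0 := by
    intro h
    have : B = A := by linarith
    rw [this] at hd
    nlinarith [mul_self_nonneg A]
  have hBq : 0 < B / (B - A) := by
    rcases lt_or_gt_of_ne hAB with h | h
    · have : B < 0 := by nlinarith
      exact div_pos_of_neg_of_neg this h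
    · have : 0 < B := by nlinarith
      exact div_pos this h
  have hAq : 0 < -A / (B - A) := by
    rcases lt_or_gt_of_ne hAB with h | h
    · have : 0 < A := by nlinarith
      exact div_pos_of_neg_of_neg (by linarith) h
    · have : A < 0 := by nlinarith
      exact div_pos (by linarith) h
  set x : ℝ := a r₀ * √(B / (B - A)) with hx
  set y : ℝ := a r₀ * √(-A / (B - A)) with hy
  have hx2 : x ^ 2 = a r₀ ^ 2 * (B / (B - A)) := by rw [hx, mul_pow, Real.sq_sqrt hBq.le]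
  have hy2 : y ^ 2 = a r₀ ^ 2 * (-A / (B - A)) := by rw [hy, mul_pow, Real.sq_sqrt hAq.le]
  have hxy : x ^ 2 + y ^ 2 = a r₀ ^ 2 := by
    rw [hx2, hy2]
    field_simp
    ring
  refine planarC G (r := fun _ => r₀) (α := fun _ => 0) (β := fun t => t / a r₀) (x := x) (y := y)
    (m := a r₀) hm hxy contDiff_const contDiff_const (contDiff_id.div_const _) (fun _ => hm.ne')
    (fun _ => by rw [← hab]; exact hm.ne') ?_ ?_ ?_ ?_ (fun _ => rfl) (fun _ => rfl) ?_
  · intro t
    simp only [deriv_const']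
    rw [← hab, hx2, hy2, ← hA, ← hB]
    have := hm.ne'
    field_simp
    ring
  · intro t
    simp only [deriv_const']
    rw [← hab]
    ring
  · intro t
    simp only [deriv_div_const, deriv_id'']
    rw [← hab]
    have := hm.ne'
    field_simp
  · intro t
    simp only [deriv_const']
    rw [← hab, div_pow, div_pow]
    have := hm.ne'
    field_simp
    linarith
  · intro t
    have := hm.ne'
    field_simp

end Pool.Agent.L7h84.CL
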